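import Pool.Agent.Work.PS.E.WINE
import Pool.Agent.Work.PS.FINALB
import Pool.Agent.Work.PS.MainB
import Pool.Agent.Work.PS.DIVB

/-!
# From windows to the primorial intervals: exceptional integers against weights of small energy
-/

set_option autoImplicit false

namespace Pool.Agent.PS

open Finset ArithmeticFunction
open Pool.Agent.Work.MP_484fb8_nt
open scoped Classical

/-- `m` is the sum of two primes as in the primorial Goldbach problem. -/
def Rep (n m : ℕ) : Prop := ∃ p ∈ primesIn n, ∃ q ∈ primesIn n ∪ primesIn (n + 1), m = p + q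

/-- FINE: exceptional integers of the primorial Goldbach problem carry little of any weight of small
additive energy. -/
def Stmt_FINE : Prop := ∃ δ c C : ℝ, 0 < δ ∧ δ ≤ 1 ∧ 0 < c ∧ 1 ≤ C ∧ ∃ r : ℕ → ℕ,
  (∀ A : ℕ, ∃ C : ℝ, ∀ n : ℕ, 1 ≤ n → (Real.log (prml (n + 1))) ^ A ≤ C * r n) ∧
  (∀ n : ℕ, 1 ≤ n → ∀ s : ℕ, 1 ≤ s → ∀ w : ℕ → ℝ, (∀ m ∈ evensIn (n + 1), 0 ≤ w m) →
    (∑ m ∈ (evensIn (n + 1)).filter (fun m => ¬ r n ∣ m ∧ ¬ (Rep n m ∧
        c * ((m : ℝ) / m.totient) * (prml n / (Real.log (prml n)) ^ 2) ≤ primorialReps n m)),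
      w m) ^ (2 * s)
      ≤ (C * (Real.log (prml (n + 1))) ^ 4) ^ (2 * s) * (prml n : ℝ) ^ (1 - δ)
        * energy s (evensIn (n + 1)) w) ∧
  ∀ ε : ℝ, 0 < ε → ∃ C' : ℝ, 1 ≤ C' ∧ ∀ n : ℕ, 1 ≤ n → ∀ s : ℕ, 1 ≤ s → ∀ w : ℕ → ℝ,
    (∀ m ∈ evensIn (n + 1), 0 ≤ w m) →
    (∑ m ∈ (evensIn (n + 1)).filter (fun m => ¬ (Rep n m ∧
        1 / 8 * (prml n : ℝ) ^ (1 - ε) ≤ primorialReps n m)), w m) ^ (2 * s)
      ≤ (C' * (prml n : ℝ) ^ ε) ^ (2 * s) * (prml n : ℝ) ^ (1 - δ)
        * energy s (evensIn (n + 1)) w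

namespace Energy

/-- The primorial `#(n)` is large enough. -/
structure Large (n : ℕ) : Prop where
  one_le : 1 ≤ n
  exp_le : Real.exp 1048576 ≤ prml n
  three : prml 3 + 16 ≤ prml n
  sq : (Real.log (prml n)) ^ 2 ≤ prml n

theorem exists_large : ∃ X0 : ℕ, ∀ n : ℕ, 1 ≤ n → X0 ≤ prml n → Large n := by
  obtain ⟨X4, hX4⟩ := log_pow_le_rpow 2 1 1 one_pos one_pos
  refine ⟨max X4 (max ⌈Real.exp 1048576⌉₊ (prml 3 + 16)), fun n hn hX => ?_⟩
  simp only [max_le_iff] at hX
  obtain ⟨h1, h2, h3⟩ := hX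
  refine ⟨hn, (Nat.le_ceil _).trans (by exact_mod_cast h2), h3, ?_⟩
  have h4 := hX4 (prml n) h1
  rwa [one_mul, Real.rpow_one] at h4

theorem Large.log_ge {n : ℕ} (h : Large n) : 1048576 ≤ Real.log (prml n) := by
  have h0 : (0 : ℝ) < prml n := lt_of_lt_of_le (Real.exp_pos _) h.exp_le
  rw [Real.le_log_iff_exp_le h0]
  exact h.exp_le

theorem Large.pos {n : ℕ} (h : Large n) : (0 : ℝ) < prml n :=
  lt_of_lt_of_le (Real.exp_pos _) h.exp_le

theorem Large.next {n : ℕ} (h : Large n) :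
    ((prml (n + 1) + 1 : ℕ) : ℝ) ≤ prml n * (Real.log (prml n)) ^ 2 ∧
    ((prml (n + 1) + 1 : ℕ) : ℝ) ≤ (prml n : ℝ) ^ 2 ∧ prml n ≤ prml (n + 1) + 1 := by
  have hn := h.one_le
  have hX0r := h.pos
  have hy1 := h.log_ge
  have h3 := h.three
  have hsq := h.sq
  set X := prml n with hXd
  have hXr : (16 : ℝ) ≤ X := by exact_mod_cast (by omega : 16 ≤ X)
  set y := Real.log X with hy
  have hp := nth_prime_small n hn hy1
  rw [← hXd, ← hy] at hp
  have hLr : ((prml (n + 1) + 1 : ℕ) : ℝ) = X * (Nat.nth Nat.Prime n : ℝ) + 1 := by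
    rw [prml_succ]
    push_cast
    rw [hXd]
  have hLX : ((prml (n + 1) + 1 : ℕ) : ℝ) ≤ X * y ^ 2 := by
    rw [hLr]
    have h4 : (X : ℝ) * (Nat.nth Nat.Prime n : ℝ) ≤ X * (y ^ 2 / 4) := by gcongr
    have h5 : (1 : ℝ) ≤ X * (y ^ 2 / 4) := by
      have : (1 : ℝ) ≤ y ^ 2 / 4 := by nlinarith
      nlinarith
    have h6 : (X : ℝ) * (y ^ 2 / 4) + X * (y ^ 2 / 4) ≤ X * y ^ 2 := by
      have : 0 ≤ (X : ℝ) * y ^ 2 := by positivity
      nlinarith
    linarith
  refine ⟨hLX, ?_, ?_⟩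
  · calc ((prml (n + 1) + 1 : ℕ) : ℝ) ≤ X * y ^ 2 := hLX
      _ ≤ X * X := by gcongr
      _ = _ := by ring
  · rw [prml_succ, ← hXd]
    have : 1 ≤ Nat.nth Nat.Prime n := by have := nth_prime_ge n; omega
    nlinarith

/-- Many representations if the convolution is large. -/
theorem conv_le_reps {n : ℕ} (h : Large n) (m : ℕ) (hmE : m ∈ evensIn (n + 1)) :
    ∑ a ∈ Ioc (prml n / 4) (prml n / 2), th a * th (m - a)
      ≤ primorialReps n m * (2 * Real.log (prml n)) ^ 2 := by
  have hn := h.one_le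
  have hX0r := h.pos
  have hy1 := h.log_ge
  have h3 := h.three
  obtain ⟨_, hLX2, hXL⟩ := h.next
  set X := prml n with hX
  set y := Real.log X with hy
  have hy0 : 0 < y := by linarith
  have hn3 : 3 < n := by
    by_contra hcon
    push Not at hcon
    have := prml_mono hcon
    omega
  set L := prml (n + 1) + 1 with hL
  have hLpos : (0 : ℝ) < L := by
    have : (X : ℝ) ≤ L := by exact_mod_cast hXL
    linarith
  have hlogL : Real.log L ≤ 2 * y := by
    have h1 := Real.log_le_log hLpos hLX2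
    rw [Real.log_pow] at h1
    push_cast at h1
    exact h1
  have hmE' := hmE
  unfold evensIn primorialInterval at hmE'
  rw [mem_filter, mem_Icc, Nat.add_sub_cancel] at hmE'
  obtain ⟨⟨hm1, hm2⟩, hev⟩ := hmE'
  have hmX : X < m := by omega
  have hmL : m ≤ L := hm2
  have hpairs := pairs_le_reps n hn m hmE
  rw [← hX] at hpairs
  have hr := r_le_pairs (X / 4) (X / 2) m (2 * y) (by linarith) (fun a ha => by
    rw [mem_Ioc] at ha
    refine (th_le a L (by omega) (by omega)).trans hlogL) (fun a ha => by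
    rw [mem_Ioc] at ha
    exact (th_le (m - a) L (by omega) (by omega)).trans hlogL)
  have hcardle : ((Ioc (X / 4) (X / 2)).filter (fun p => p.Prime ∧ (m - p).Prime)).card
      ≤ primorialReps n m := by
    refine le_trans ?_ hpairs
    apply card_le_card
    intro p hp
    rw [mem_filter, mem_Ioc] at hp ⊢
    refine ⟨⟨?_, hp.1.2⟩, hp.2⟩
    have h4 : 4 * prml (n - 1) ≤ X := by
      obtain ⟨k, rfl⟩ := Nat.exists_eq_add_of_le' hn
      rw [hX, Nat.add_sub_cancel, prml_succ, mul_comm 4]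
      exact Nat.mul_le_mul_left _ (by have := nth_prime_ge k; omega)
    omega
  have hcardr : (((Ioc (X / 4) (X / 2)).filter
      (fun p => p.Prime ∧ (m - p).Prime)).card : ℝ) ≤ primorialReps n m := by
    exact_mod_cast hcardle
  exact hr.trans (by gcongr)

theorem rep_of_pos {n m : ℕ} (h : (0 : ℝ) < primorialReps n m) : Rep n m := by
  have h11 : 0 < primorialReps n m := by exact_mod_cast h
  unfold primorialReps at h11
  rw [Finset.card_pos] at h11
  obtain ⟨⟨p, q⟩, hz⟩ := h11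
  rw [mem_filter, mem_product] at hz
  exact ⟨p, hz.1.1, q, hz.1.2, hz.2.symm⟩

/-- Covering of the primorial interval by windows. -/
theorem cover {n : ℕ} (h : Large n) (bad : ℕ → Prop) (s : ℕ) (hs : 1 ≤ s) (K : ℝ) (hK : 0 ≤ K)
    (w : ℕ → ℝ) (hw : ∀ m ∈ evensIn (n + 1), 0 ≤ w m)
    (hwin : ∀ M : ℕ, prml n ≤ M → (M : ℝ) ≤ prml n * (Real.log (prml n)) ^ 2 →
      ∀ Z : Finset ℕ, Z ⊆ evensIn (n + 1) → Z ⊆ Ioc M (M + prml n / 8) → (∀ m ∈ Z, bad m) →
      (∑ m ∈ Z, w m) ^ (2 * s) ≤ K * energy s Z w) :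
    (∑ m ∈ (evensIn (n + 1)).filter bad, w m) ^ (2 * s)
      ≤ (17 * (Real.log (prml n)) ^ 2) ^ (2 * s) * K * energy s (evensIn (n + 1)) w := by
  have hn := h.one_le
  have hX0r := h.pos
  have hy1 := h.log_ge
  have h3 := h.three
  obtain ⟨hLX, hLX2, hXL⟩ := h.next
  set X := prml n with hX
  have hXr : (16 : ℝ) ≤ X := by exact_mod_cast (by omega : 16 ≤ X)
  set y := Real.log X with hy
  have hy0 : 0 < y := by linarith
  set L := prml (n + 1) + 1 with hL
  set t := X / 8 with ht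
  have ht1 : 1 ≤ t := by omega
  have htr : (X : ℝ) / 16 ≤ t := by
    have h1 : X ≤ 16 * t := by omega
    have h2 : (X : ℝ) ≤ 16 * t := by exact_mod_cast h1
    linarith
  set J := (L - X) / t + 1 with hJ
  have hE0 : 0 ≤ energy s (evensIn (n + 1)) w := energy_nonneg s _ w hw
  -- the windows
  set S := (evensIn (n + 1)).filter bad with hS
  have hSE : S ⊆ evensIn (n + 1) := filter_subset _ _
  set V : ℕ → Finset ℕ := fun j => S.filter fun m => m ∈ Ioc (X + j * t) (X + j * t + t) with hV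
  have hcov : S ⊆ (range J).biUnion V := by
    intro m hm
    have hmE := hSE hm
    unfold evensIn primorialInterval at hmE
    rw [mem_filter, mem_Icc, Nat.add_sub_cancel] at hmE
    obtain ⟨⟨hm1, hm2⟩, hev⟩ := hmE
    have hmX : X < m := by omega
    have hmL : m ≤ L := hm2
    rw [mem_biUnion]
    refine ⟨(m - X - 1) / t, ?_, ?_⟩
    · rw [mem_range, hJ]
      have : (m - X - 1) / t ≤ (L - X) / t := Nat.div_le_div_right (by omega)
      omega
    · rw [hV]
      simp only [mem_filter, mem_Ioc]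
      have h1 : (m - X - 1) / t * t ≤ m - X - 1 := Nat.div_mul_le_self _ _
      have h2 : m - X - 1 < t * ((m - X - 1) / t + 1) := Nat.lt_mul_div_succ _ (by omega)
      have h3 : t * ((m - X - 1) / t + 1) = (m - X - 1) / t * t + t := by ring
      exact ⟨hm, by omega, by omega⟩
  have hsum : ∑ m ∈ S, w m ≤ ∑ j ∈ range J, ∑ m ∈ V j, w m := by
    calc ∑ m ∈ S, w m ≤ ∑ m ∈ (range J).biUnion V, w m := by
          refine sum_le_sum_of_subset_of_nonneg hcov fun m hm _ => ?_
          rw [mem_biUnion] at hm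
          obtain ⟨j, _, hj⟩ := hm
          exact hw m (hSE (mem_filter.mp hj).1)
      _ = ∑ j ∈ range J, ∑ m ∈ V j, w m := by
          refine sum_biUnion ?_
          intro i _ j _ hij
          rw [Function.onFun, disjoint_left]
          intro m hmi hmj
          have h1 := mem_Ioc.mp (mem_filter.mp hmi).2
          have h2 := mem_Ioc.mp (mem_filter.mp hmj).2
          rcases Nat.lt_or_gt_of_ne hij with h | h
          · have h3 : (i + 1) * t ≤ j * t := Nat.mul_le_mul_right _ h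
            have h4 : (i + 1) * t = i * t + t := by ring
            omega
          · have h3 : (j + 1) * t ≤ i * t := Nat.mul_le_mul_right _ h
            have h4 : (j + 1) * t = j * t + t := by ring
            omega
  have hVj : ∀ j ∈ range J, (∑ m ∈ V j, w m) ^ (2 * s) ≤ K * energy s (evensIn (n + 1)) w := by
    intro j hj
    rw [mem_range, hJ] at hj
    have h2 : j * t ≤ L - X := by
      calc j * t ≤ (L - X) / t * t := Nat.mul_le_mul_right _ (by omega)
        _ ≤ L - X := Nat.div_mul_le_self _ _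
    have h3 : ((X + j * t : ℕ) : ℝ) ≤ X * (Real.log X) ^ 2 := by
      refine le_trans ?_ hLX
      exact_mod_cast (by omega : X + j * t ≤ L)
    have hVE : V j ⊆ evensIn (n + 1) := (filter_subset _ _).trans hSE
    refine (hwin (X + j * t) (by omega) h3 (V j) hVE (fun m hm => ?_) (fun m hm => ?_)).trans ?_
    · exact (mem_filter.mp hm).2
    · exact (mem_filter.mp (mem_filter.mp hm).1).2
    · apply mul_le_mul_of_nonneg_left _ hK
      exact energy_mono s _ _ w w hVE (fun m hm => ⟨hw m (hVE hm), le_rfl⟩) hw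
  have hJle : (J : ℝ) ≤ 17 * y ^ 2 := by
    have h1 : (((L - X) / t : ℕ) : ℝ) ≤ ((L - X : ℕ) : ℝ) / t := Nat.cast_div_le
    have h2 : ((L - X : ℕ) : ℝ) ≤ X * y ^ 2 := by
      rw [Nat.cast_sub hXL]
      linarith
    have hs0 : (0 : ℝ) < t := by
      have : (1 : ℝ) ≤ t := by exact_mod_cast ht1
      linarith
    have h3 : ((L - X : ℕ) : ℝ) / t ≤ 16 * y ^ 2 := by
      rw [div_le_iff₀ hs0]
      calc ((L - X : ℕ) : ℝ) ≤ X * y ^ 2 := h2
        _ = 16 * y ^ 2 * (X / 16) := by ring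
        _ ≤ 16 * y ^ 2 * t := by gcongr
    have h4 : (1 : ℝ) ≤ y ^ 2 := by nlinarith
    rw [hJ]
    push_cast
    linarith
  have hS0 : 0 ≤ ∑ m ∈ S, w m := sum_nonneg fun m hm => hw m (hSE hm)
  have hVj0 : ∀ j ∈ range J, 0 ≤ ∑ m ∈ V j, w m := fun j _ =>
    sum_nonneg fun m hm => hw m (hSE (mem_filter.mp hm).1)
  obtain ⟨k, hk⟩ : ∃ k, 2 * s = k + 1 := ⟨2 * s - 1, by omega⟩
  have hj := jensen (range J) (fun _ => (1 : ℝ)) (fun j => ∑ m ∈ V j, w m) (fun _ _ => zero_le_one)
    hVj0 k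
  simp only [one_mul, sum_const, card_range, nsmul_eq_mul, mul_one] at hj
  rw [hk] at hVj ⊢
  have hJ0 : (0 : ℝ) ≤ J := Nat.cast_nonneg J
  calc (∑ m ∈ S, w m) ^ (k + 1) ≤ (∑ j ∈ range J, ∑ m ∈ V j, w m) ^ (k + 1) := by gcongr
    _ ≤ (J : ℝ) ^ k * ∑ j ∈ range J, (∑ m ∈ V j, w m) ^ (k + 1) := hj
    _ ≤ (J : ℝ) ^ k * ∑ j ∈ range J, K * energy s (evensIn (n + 1)) w := by
        gcongr with j hj
        exact hVj j hj
    _ = (J : ℝ) ^ (k + 1) * K * energy s (evensIn (n + 1)) w := by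
        rw [sum_const, card_range, nsmul_eq_mul]
        ring
    _ ≤ (17 * y ^ 2) ^ (k + 1) * K * energy s (evensIn (n + 1)) w := by gcongr

theorem evens_bound (n X0 : ℕ) (hn : 1 ≤ n) (h : prml n < X0) :
    (((evensIn (n + 1)).card : ℕ) : ℝ) ≤ (prml (X0 + 1) : ℝ) + 2 := by
  have h1 : #(evensIn (n + 1)) ≤ prml (n + 1) + 1 := by
    unfold evensIn primorialInterval
    refine (card_filter_le _ _).trans ?_
    rw [Nat.card_Icc]
    omega
  have h2 : n + 1 ≤ X0 + 1 := by
    have := le_prml n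
    omega
  have h3 : prml (n + 1) ≤ prml (X0 + 1) := prml_mono h2
  have h4 : (#(evensIn (n + 1)) : ℝ) ≤ (prml (n + 1) : ℝ) + 1 := by exact_mod_cast h1
  have h5 : (prml (n + 1) : ℝ) ≤ prml (X0 + 1) := by exact_mod_cast h3
  linarith

end Energy

open Energy in
theorem stmt_FINE (hWIN : Stmt_WINE) : Stmt_FINE := by
  obtain ⟨δ, c, C, hδ, hδ1, hc, hC, r, hrg, ⟨X1, hwin1⟩, hwin2⟩ := hWIN
  obtain ⟨X2, hX2⟩ := exists_large
  have hpr1 : ∀ k : ℕ, 1 ≤ prml k := fun k => by have := le_prml k; omega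
  obtain ⟨X5, hX5⟩ := hrg 0
  set X0 : ℕ := max X1 (max X2 X5) with hX0
  set Bd : ℝ := (prml (X0 + 1) : ℝ) + 2 with hBd
  have hBd1 : 1 ≤ Bd := by
    have : (0 : ℝ) ≤ prml (X0 + 1) := Nat.cast_nonneg _
    linarith
  refine ⟨δ / 2, c / 4, 17 * C + Bd, by positivity, by linarith, by positivity, by linarith,
    fun n => max 1 (r (prml n)), fun A => ?_, ?_, ?_⟩
  · -- growth
    obtain ⟨Xa, hXa⟩ := hrg A
    obtain ⟨Xb, hXb⟩ := prml_succ_le
    set N0 := max Xa Xb with hN0
    set B : ℝ := (Real.log (prml (N0 + 1))) ^ A with hB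
    refine ⟨max (2 ^ A) B, fun n hn => ?_⟩
    have hr1 : (1 : ℝ) ≤ ((max 1 (r (prml n)) : ℕ) : ℝ) := by exact_mod_cast le_max_left _ _
    have hlog0 : 0 ≤ Real.log (prml (n + 1)) :=
      Real.log_nonneg (by exact_mod_cast hpr1 (n + 1))
    by_cases hsm : prml n < N0
    · have h1 : n + 1 ≤ N0 + 1 := by
        have := le_prml n
        omega
      have h2 : prml (n + 1) ≤ prml (N0 + 1) := prml_mono h1
      have h3 : Real.log (prml (n + 1)) ≤ Real.log (prml (N0 + 1)) :=
        Real.log_le_log (by exact_mod_cast hpr1 (n + 1)) (by exact_mod_cast h2)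
      calc (Real.log (prml (n + 1))) ^ A ≤ B := by rw [hB]; gcongr
        _ ≤ max (2 ^ A) B := le_max_right _ _
        _ ≤ max (2 ^ A) B * ((max 1 (r (prml n)) : ℕ) : ℝ) := by
            apply le_mul_of_one_le_right _ hr1
            exact le_trans (by positivity) (le_max_left _ _)
    · push Not at hsm
      have h1 := hXa (prml n) ((le_max_left _ _).trans hsm)
      have h2 := (hXb n hn ((le_max_right _ _).trans hsm)).2
      have hX1 : (1 : ℝ) ≤ prml n := by exact_mod_cast hpr1 n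
      have h3 : Real.log (prml (n + 1)) ≤ 2 * Real.log (prml n) := by
        have h4 : (prml (n + 1) : ℝ) ≤ (prml n : ℝ) ^ 2 := by
          refine le_trans ?_ h2
          push_cast
          linarith
        have h5 := Real.log_le_log (by exact_mod_cast hpr1 (n + 1)) h4
        rw [Real.log_pow] at h5
        push_cast at h5
        exact h5
      have h4 : (r (prml n) : ℝ) ≤ ((max 1 (r (prml n)) : ℕ) : ℝ) := by
        exact_mod_cast le_max_right _ _
      calc (Real.log (prml (n + 1))) ^ A ≤ (2 * Real.log (prml n)) ^ A := by gcongr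
        _ = 2 ^ A * (Real.log (prml n)) ^ A := by rw [mul_pow]
        _ ≤ 2 ^ A * ((max 1 (r (prml n)) : ℕ) : ℝ) := by
            gcongr
            exact h1.trans h4
        _ ≤ max (2 ^ A) B * ((max 1 (r (prml n)) : ℕ) : ℝ) := by
            gcongr
            exact le_max_left _ _
  · -- off the multiples of `r n`
    intro n hn s hs w hw
    have hEn := energy_nonneg s (evensIn (n + 1)) w hw
    have hXr1 : (1 : ℝ) ≤ prml n := by exact_mod_cast hpr1 n
    have hX'1 : (1 : ℝ) ≤ (prml n : ℝ) ^ (1 - δ / 2) := Real.one_le_rpow hXr1 (by linarith)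
    have hlog1 : 1 ≤ Real.log (prml (n + 1)) := by
      have h6 : 6 ≤ prml (n + 1) := by
        have h7 := prml_mono (show 2 ≤ n + 1 by omega)
        have h8 : prml 2 = 6 := by
          show prml (1 + 1) = 6
          rw [prml_succ, show prml 1 = prml (0 + 1) from rfl, prml_succ]
          have : Nat.nth Nat.Prime 0 = 2 := Nat.nth_prime_zero_eq_two
          have h9 : Nat.nth Nat.Prime 1 = 3 := Nat.nth_prime_one_eq_three
          rw [this, h9]
          simp [prml]
        omega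
      rw [Real.le_log_iff_exp_le (by exact_mod_cast (by omega : 0 < prml (n + 1)))]
      refine Real.exp_one_lt_d9.le.trans ?_
      have : (6 : ℝ) ≤ prml (n + 1) := by exact_mod_cast h6
      linarith
    by_cases hsmall : prml n < X0
    · have hE := evens_bound n X0 hn hsmall
      have hE0 : (0 : ℝ) ≤ (#(evensIn (n + 1)) : ℝ) := Nat.cast_nonneg _
      set F := (evensIn (n + 1)).filter (fun m => ¬ (max 1 (r (prml n))) ∣ m ∧ ¬ (Rep n m ∧
        c / 4 * ((m : ℝ) / m.totient) * (prml n / (Real.log (prml n)) ^ 2) ≤ primorialReps n m))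
        with hF
      have hFE : F ⊆ evensIn (n + 1) := filter_subset _ _
      calc (∑ m ∈ F, w m) ^ (2 * s) ≤ (∑ m ∈ evensIn (n + 1), w m) ^ (2 * s) := by
            have h1 : 0 ≤ ∑ m ∈ F, w m := sum_nonneg fun m hm => hw m (hFE hm)
            have h2 : ∑ m ∈ F, w m ≤ ∑ m ∈ evensIn (n + 1), w m :=
              sum_le_sum_of_subset_of_nonneg hFE fun m hm _ => hw m hm
            gcongr
        _ ≤ (#(evensIn (n + 1)) : ℝ) ^ s * energy s (evensIn (n + 1)) w := trivial_bound s _ w hw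
        _ ≤ ((17 * C + Bd) * (Real.log (prml (n + 1))) ^ 4) ^ (2 * s)
            * energy s (evensIn (n + 1)) w := by
            gcongr
            have h3 : (1 : ℝ) ≤ (17 * C + Bd) * (Real.log (prml (n + 1))) ^ 4 := by
              have h4 : (1 : ℝ) ≤ (Real.log (prml (n + 1))) ^ 4 := one_le_pow₀ hlog1
              have h5 : (1 : ℝ) ≤ 17 * C + Bd := by linarith
              nlinarith
            calc (#(evensIn (n + 1)) : ℝ) ^ s ≤ Bd ^ s := by gcongr
              _ ≤ ((17 * C + Bd) * (Real.log (prml (n + 1))) ^ 4) ^ s := by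
                  gcongr
                  have h4 : (1 : ℝ) ≤ (Real.log (prml (n + 1))) ^ 4 := one_le_pow₀ hlog1
                  have h5 : Bd ≤ 17 * C + Bd := by linarith
                  nlinarith
              _ ≤ ((17 * C + Bd) * (Real.log (prml (n + 1))) ^ 4) ^ (2 * s) :=
                  pow_le_pow_right₀ h3 (by omega)
        _ ≤ _ := by
            have h5 : (0 : ℝ) ≤ ((17 * C + Bd) * (Real.log (prml (n + 1))) ^ 4) ^ (2 * s) := by
              positivity
            have h6 := mul_le_mul_of_nonneg_left hX'1 h5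
            rw [mul_one] at h6
            gcongr
    · push Not at hsmall
      have hc1 : X1 ≤ prml n := (le_max_left _ _).trans hsmall
      have hc2 : X2 ≤ prml n := ((le_max_left _ _).trans (le_max_right _ _)).trans hsmall
      have hc7 : X5 ≤ prml n := ((le_max_right _ _).trans (le_max_right _ _)).trans hsmall
      have hrX : max 1 (r (prml n)) = r (prml n) := by
        have h1 := hX5 (prml n) hc7
        rw [pow_zero] at h1
        exact max_eq_right (by exact_mod_cast h1)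
      have hL := hX2 n hn hc2
      have hy1 := hL.log_ge
      have hy0 : 0 < Real.log (prml n) := by linarith
      have hyle : Real.log (prml n) ≤ Real.log (prml (n + 1)) :=
        Real.log_le_log hL.pos (by exact_mod_cast prml_mono (Nat.le_succ n))
      set K : ℝ := (C * (Real.log (prml n)) ^ 2) ^ (2 * s) * (prml n : ℝ) ^ (1 - δ) with hK
      have hK0 : 0 ≤ K := by positivity
      have hcov := cover hL (fun m => ¬ (max 1 (r (prml n))) ∣ m ∧ ¬ (Rep n m ∧
        c / 4 * ((m : ℝ) / m.totient) * (prml n / (Real.log (prml n)) ^ 2) ≤ primorialReps n m))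
        s hs K hK0 w hw (by
          intro M hXM hM Z hZE hZ hbad
          refine hwin1 (prml n) M hc1 hXM hM s hs Z hZ (fun m hm => ?_) w
            (fun m hm => hw m (hZE hm))
          obtain ⟨hr, hnot⟩ := hbad m hm
          rw [hrX] at hr
          have hmE := hZE hm
          have hev : Even m := by
            have := hmE
            unfold evensIn at this
            exact (mem_filter.mp this).2
          refine ⟨hev, hr, ?_⟩
          by_contra hge
          push Not at hge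
          apply hnot
          have h1 := hge.trans (conv_le_reps hL m hmE)
          have h2 : c / 4 * ((m : ℝ) / m.totient) * (prml n / (Real.log (prml n)) ^ 2)
              = c * ((m : ℝ) / m.totient) * prml n / (2 * Real.log (prml n)) ^ 2 := by
            field_simp
            ring
          have h3 : c / 4 * ((m : ℝ) / m.totient) * (prml n / (Real.log (prml n)) ^ 2)
              ≤ primorialReps n m := by
            rw [h2, div_le_iff₀ (by positivity)]
            exact h1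
          refine ⟨rep_of_pos (lt_of_lt_of_le ?_ h3), h3⟩
          have hm0 : 0 < m := by
            have := hZ hm
            rw [mem_Ioc] at this
            omega
          have h4 : (0 : ℝ) < m := by exact_mod_cast hm0
          have h5 : (0 : ℝ) < m.totient := by exact_mod_cast Nat.totient_pos.2 hm0
          have h6 := hL.pos
          positivity)
      refine le_trans (le_of_eq ?_) (hcov.trans ?_)
      · refine congrArg (fun F : Finset ℕ => (∑ m ∈ F, w m) ^ (2 * s)) ?_
        ext m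
        simp only [mem_filter]
      apply mul_le_mul_of_nonneg_right _ hEn
      rw [hK, ← mul_assoc, ← mul_pow]
      have h1 : 17 * (Real.log (prml n)) ^ 2 * (C * (Real.log (prml n)) ^ 2)
          ≤ (17 * C + Bd) * (Real.log (prml (n + 1))) ^ 4 := by
        calc 17 * (Real.log (prml n)) ^ 2 * (C * (Real.log (prml n)) ^ 2)
            = (17 * C) * (Real.log (prml n)) ^ 4 := by ring
          _ ≤ (17 * C + Bd) * (Real.log (prml (n + 1))) ^ 4 := by
              gcongr
              linarith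
      have h2 : (prml n : ℝ) ^ (1 - δ) ≤ (prml n : ℝ) ^ (1 - δ / 2) :=
        Real.rpow_le_rpow_of_exponent_le hXr1 (by linarith)
      gcongr
  · -- all integers
    intro ε hε
    set ε' : ℝ := ε / 2 with hε'
    have hε'0 : 0 < ε' := by positivity
    obtain ⟨X3, hwin3⟩ := hwin2 ε' hε'0
    obtain ⟨X4, hX4⟩ := log_pow_le_rpow 4 (ε / 2) (1 / 17) (by positivity)
      (by positivity)
    obtain ⟨X6, hX6⟩ := log_pow_le_rpow 2 (ε / 2) 1 (by positivity) one_pos
    set X7 : ℕ := max (max X3 X4) (max X6 X2) with hX7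
    set Bd' : ℝ := (prml (X7 + 1) : ℝ) + 2 with hBd'
    have hBd'1 : 1 ≤ Bd' := by
      have : (0 : ℝ) ≤ prml (X7 + 1) := Nat.cast_nonneg _
      linarith
    refine ⟨Bd', hBd'1, fun n hn s hs w hw => ?_⟩
    have hEn := energy_nonneg s (evensIn (n + 1)) w hw
    have hXr1 : (1 : ℝ) ≤ prml n := by exact_mod_cast hpr1 n
    have hX'1 : (1 : ℝ) ≤ (prml n : ℝ) ^ (1 - δ / 2) := Real.one_le_rpow hXr1 (by linarith)
    have hXε1 : (1 : ℝ) ≤ (prml n : ℝ) ^ ε := Real.one_le_rpow hXr1 hε.le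
    by_cases hsmall : prml n < X7
    · have hE := evens_bound n X7 hn hsmall
      have hE0 : (0 : ℝ) ≤ (#(evensIn (n + 1)) : ℝ) := Nat.cast_nonneg _
      set F := (evensIn (n + 1)).filter (fun m => ¬ (Rep n m ∧
        1 / 8 * (prml n : ℝ) ^ (1 - ε) ≤ primorialReps n m)) with hF
      have hFE : F ⊆ evensIn (n + 1) := filter_subset _ _
      have hge1 : 1 ≤ Bd' * (prml n : ℝ) ^ ε := one_le_mul_of_one_le_of_one_le hBd'1 hXε1
      calc (∑ m ∈ F, w m) ^ (2 * s) ≤ (∑ m ∈ evensIn (n + 1), w m) ^ (2 * s) := by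
            have h1 : 0 ≤ ∑ m ∈ F, w m := sum_nonneg fun m hm => hw m (hFE hm)
            have h2 : ∑ m ∈ F, w m ≤ ∑ m ∈ evensIn (n + 1), w m :=
              sum_le_sum_of_subset_of_nonneg hFE fun m hm _ => hw m hm
            gcongr
        _ ≤ (#(evensIn (n + 1)) : ℝ) ^ s * energy s (evensIn (n + 1)) w := trivial_bound s _ w hw
        _ ≤ (Bd' * (prml n : ℝ) ^ ε) ^ (2 * s) * energy s (evensIn (n + 1)) w := by
            gcongr
            calc (#(evensIn (n + 1)) : ℝ) ^ s ≤ Bd' ^ s := by gcongr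
              _ ≤ (Bd' * (prml n : ℝ) ^ ε) ^ s := by
                  gcongr
                  exact le_mul_of_one_le_right (by linarith) hXε1
              _ ≤ (Bd' * (prml n : ℝ) ^ ε) ^ (2 * s) := pow_le_pow_right₀ hge1 (by omega)
        _ ≤ _ := by
            have h5 : (0 : ℝ) ≤ (Bd' * (prml n : ℝ) ^ ε) ^ (2 * s) := by positivity
            have h6 := mul_le_mul_of_nonneg_left hX'1 h5
            rw [mul_one] at h6
            gcongr
    · push Not at hsmall
      have hc3 : X3 ≤ prml n := ((le_max_left _ _).trans (le_max_left _ _)).trans hsmall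
      have hc4 : X4 ≤ prml n := ((le_max_right _ _).trans (le_max_left _ _)).trans hsmall
      have hc6 : X6 ≤ prml n := ((le_max_left _ _).trans (le_max_right _ _)).trans hsmall
      have hc2 : X2 ≤ prml n := ((le_max_right _ _).trans (le_max_right _ _)).trans hsmall
      have hL := hX2 n hn hc2
      have hy1 := hL.log_ge
      have hX0r := hL.pos
      have hy0 : 0 < Real.log (prml n) := by linarith
      set X := prml n with hXd
      set y := Real.log X with hy
      set K : ℝ := ((X : ℝ) ^ ε' * y ^ 2) ^ (2 * s) * (X : ℝ) ^ (1 - δ) with hK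
      have hK0 : 0 ≤ K := by positivity
      have hcov := cover hL (fun m => ¬ (Rep n m ∧
        1 / 8 * (X : ℝ) ^ (1 - ε) ≤ primorialReps n m))
        s hs K hK0 w hw (by
          intro M hXM hM Z hZE hZ hbad
          refine hwin3 X M hc3 hXM hM s hs Z hZ (fun m hm => ?_) w
            (fun m hm => hw m (hZE hm))
          have hnot := hbad m hm
          have hmE := hZE hm
          have hev : Even m := by
            have := hmE
            unfold evensIn at this
            exact (mem_filter.mp this).2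
          refine ⟨hev, ?_⟩
          by_contra hge
          push Not at hge
          apply hnot
          have h1 := hge.trans (conv_le_reps hL m hmE)
          have h5 := hX6 X hc6
          rw [← hy, one_mul] at h5
          have h7 : (X : ℝ) ^ (1 - ε) * (X : ℝ) ^ (ε / 2) ≤ (X : ℝ) ^ (1 - ε') := by
            rw [← Real.rpow_add hX0r]
            apply Real.rpow_le_rpow_of_exponent_le hXr1
            rw [hε']
            linarith
          have h12 : (0 : ℝ) ≤ primorialReps n m := Nat.cast_nonneg _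
          have h6 : (X : ℝ) ^ (1 - ε) * (X : ℝ) ^ (ε / 2)
              ≤ (4 * primorialReps n m) * (X : ℝ) ^ (ε / 2) := by
            refine (h7.trans h1).trans ?_
            calc (primorialReps n m : ℝ) * (2 * y) ^ 2 = (4 * primorialReps n m) * y ^ 2 := by ring
              _ ≤ (4 * primorialReps n m) * (X : ℝ) ^ (ε / 2) := by gcongr
          have h8 : 0 < (X : ℝ) ^ (ε / 2) := by positivity
          have h11 := le_of_mul_le_mul_right h6 h8
          have h9 : 1 / 8 * (X : ℝ) ^ (1 - ε) ≤ primorialReps n m := by linarith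
          refine ⟨rep_of_pos (lt_of_lt_of_le ?_ h9), h9⟩
          positivity)
      refine le_trans (le_of_eq ?_) (hcov.trans ?_)
      · refine congrArg (fun F : Finset ℕ => (∑ m ∈ F, w m) ^ (2 * s)) ?_
        ext m
        simp only [mem_filter]
      apply mul_le_mul_of_nonneg_right _ hEn
      rw [hK, ← mul_assoc, ← mul_pow]
      have h1 : 17 * y ^ 2 * ((X : ℝ) ^ ε' * y ^ 2) ≤ Bd' * (X : ℝ) ^ ε := by
        have h3 := hX4 X hc4
        rw [← hy] at h3
        have h4 : (X : ℝ) ^ ε = (X : ℝ) ^ (ε / 2) * (X : ℝ) ^ (ε / 2) := by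
          rw [← Real.rpow_add hX0r]
          congr 1
          ring
        calc 17 * y ^ 2 * ((X : ℝ) ^ ε' * y ^ 2) = 17 * y ^ 4 * (X : ℝ) ^ (ε / 2) := by
              rw [hε']; ring
          _ ≤ (X : ℝ) ^ (ε / 2) * (X : ℝ) ^ (ε / 2) := by
              gcongr
              linarith
          _ = (X : ℝ) ^ ε := h4.symm
          _ ≤ Bd' * (X : ℝ) ^ ε := le_mul_of_one_le_left (by positivity) hBd'1
      have h2 : (X : ℝ) ^ (1 - δ) ≤ (X : ℝ) ^ (1 - δ / 2) :=
        Real.rpow_le_rpow_of_exponent_le hXr1 (by linarith)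
      gcongr

theorem main_wine : Stmt_WINE :=
  stmt_WINE main_wsb main_low main_low2 stmt_MIN stmt_SIEG stmt_RAD stmt_DIVB

theorem main_fine : Stmt_FINE := stmt_FINE main_wine

/-- The exceptional integers: not represented, or few representations. -/
def Exc2 (c ε : ℝ) (r : ℕ → ℕ) (n m : ℕ) : Prop :=
  ¬ (Rep n m ∧ 1 / 8 * (prml n : ℝ) ^ (1 - ε) ≤ primorialReps n m ∧
    (¬ r n ∣ m → c * ((m : ℝ) / m.totient) * (prml n / (Real.log (prml n)) ^ 2)
      ≤ primorialReps n m))

/-- FINE2: one order `s`, both kinds of exceptions. -/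
def Stmt_FINE2 : Prop := ∃ δ c C : ℝ, 0 < δ ∧ δ ≤ 1 ∧ 0 < c ∧ 1 ≤ C ∧ ∃ r : ℕ → ℕ,
  (∀ A : ℕ, ∃ C : ℝ, ∀ n : ℕ, 1 ≤ n → (Real.log (prml (n + 1))) ^ A ≤ C * r n) ∧
  (∀ n : ℕ, 1 ≤ n → ∀ s : ℕ, 1 ≤ s → ∀ w : ℕ → ℝ, (∀ m ∈ evensIn (n + 1), 0 ≤ w m) →
    (∑ m ∈ (evensIn (n + 1)).filter (fun m => ¬ r n ∣ m ∧ ¬ (Rep n m ∧
        c * ((m : ℝ) / m.totient) * (prml n / (Real.log (prml n)) ^ 2) ≤ primorialReps n m)),
      w m) ^ (2 * s)
      ≤ (C * (Real.log (prml (n + 1))) ^ 4) ^ (2 * s) * (prml n : ℝ) ^ (1 - δ)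
        * energy s (evensIn (n + 1)) w) ∧
  ∀ ε : ℝ, 0 < ε → ∀ s : ℕ, 1 ≤ s → ∃ C' : ℝ, 0 < C' ∧ ∀ n : ℕ, 1 ≤ n → ∀ w : ℕ → ℝ,
    (∀ m ∈ evensIn (n + 1), 0 ≤ w m) →
    (∑ m ∈ (evensIn (n + 1)).filter (fun m => Exc2 c ε r n m), w m) ^ (2 * s)
      ≤ C' * (prml n : ℝ) ^ (1 - δ) * energy s (evensIn (n + 1)) w

open Energy in
theorem stmt_FINE2 (h : Stmt_FINE) : Stmt_FINE2 := by
  obtain ⟨δ, c, C, hδ, hδ1, hc, hC, r, hr, h1, h2⟩ := h
  have hpr1 : ∀ k : ℕ, 1 ≤ prml k := fun k => by have := le_prml k; omega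
  refine ⟨δ / 2, c, C, by positivity, by linarith, hc, hC, r, hr, fun n hn s hs w hw => ?_,
    fun ε hε s hs => ?_⟩
  · refine (h1 n hn s hs w hw).trans ?_
    have hEn := energy_nonneg s (evensIn (n + 1)) w hw
    have hXr1 : (1 : ℝ) ≤ prml n := by exact_mod_cast hpr1 n
    have h2 : (prml n : ℝ) ^ (1 - δ) ≤ (prml n : ℝ) ^ (1 - δ / 2) :=
      Real.rpow_le_rpow_of_exponent_le hXr1 (by linarith)
    gcongr
  have hsr : (1 : ℝ) ≤ s := by exact_mod_cast hs
  set ε' : ℝ := min ε (δ / (8 * s)) with hε'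
  have hε'0 : 0 < ε' := lt_min hε (by positivity)
  obtain ⟨C1, hC1, h3⟩ := h2 ε' hε'0
  -- logarithms
  obtain ⟨X4, hX4⟩ := log_pow_le_rpow (8 * s) (δ / 2) 1 (by positivity) one_pos
  obtain ⟨X5, hX5⟩ := exists_large
  set N0 := max X4 X5 with hN0
  set B : ℝ := (Real.log (prml (N0 + 1))) ^ (8 * s) with hB
  have hlog0 : ∀ k, 0 ≤ Real.log (prml k) := fun k => Real.log_nonneg (by exact_mod_cast hpr1 k)
  have hB0 : 0 ≤ B := by
    have := hlog0 (N0 + 1)
    positivity
  refine ⟨2 ^ (2 * s) * (C ^ (2 * s) * (B + 2 ^ (8 * s)) + C1 ^ (2 * s)), by positivity,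
    fun n hn w hw => ?_⟩
  have hEn := energy_nonneg s (evensIn (n + 1)) w hw
  have hXr1 : (1 : ℝ) ≤ prml n := by exact_mod_cast hpr1 n
  have hX0r : (0 : ℝ) < prml n := by linarith
  set F1 := (evensIn (n + 1)).filter (fun m => ¬ r n ∣ m ∧ ¬ (Rep n m ∧
        c * ((m : ℝ) / m.totient) * (prml n / (Real.log (prml n)) ^ 2) ≤ primorialReps n m)) with hF1
  set F2 := (evensIn (n + 1)).filter (fun m => ¬ (Rep n m ∧
        1 / 8 * (prml n : ℝ) ^ (1 - ε') ≤ primorialReps n m)) with hF2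
  set F := (evensIn (n + 1)).filter (fun m => Exc2 c ε r n m) with hF
  have hsub : F ⊆ F1 ∪ F2 := by
    intro m hm
    rw [hF, mem_filter] at hm
    obtain ⟨hmE, hex⟩ := hm
    rw [mem_union]
    by_contra hcon
    push Not at hcon
    obtain ⟨ha, hb⟩ := hcon
    rw [hF1, mem_filter] at ha
    rw [hF2, mem_filter] at hb
    push Not at ha hb
    apply hex
    have hb' := hb hmE
    refine ⟨hb'.1, le_trans ?_ hb'.2, fun hrm => (ha hmE hrm).2⟩
    have h4 : (prml n : ℝ) ^ (1 - ε) ≤ (prml n : ℝ) ^ (1 - ε') := by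
      apply Real.rpow_le_rpow_of_exponent_le hXr1
      have : ε' ≤ ε := min_le_left _ _
      linarith
    linarith
  have hS0 : ∀ G : Finset ℕ, G ⊆ evensIn (n + 1) → 0 ≤ ∑ m ∈ G, w m := fun G hG =>
    sum_nonneg fun m hm => hw m (hG hm)
  have hFE : F ⊆ evensIn (n + 1) := filter_subset _ _
  have hF1E : F1 ⊆ evensIn (n + 1) := filter_subset _ _
  have hF2E : F2 ⊆ evensIn (n + 1) := filter_subset _ _
  have hle : ∑ m ∈ F, w m ≤ ∑ m ∈ F1, w m + ∑ m ∈ F2, w m := by
    calc ∑ m ∈ F, w m ≤ ∑ m ∈ F1 ∪ F2, w m :=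
          sum_le_sum_of_subset_of_nonneg hsub fun m hm _ => hw m ((union_subset hF1E hF2E) hm)
      _ ≤ ∑ m ∈ F1 ∪ F2, w m + ∑ m ∈ F1 ∩ F2, w m := by
          have := hS0 (F1 ∩ F2) (inter_subset_left.trans hF1E)
          linarith
      _ = _ := sum_union_inter
  have e1 := h1 n hn s hs w hw
  have e2 := h3 n hn s hs w hw
  have hlogb : (Real.log (prml (n + 1))) ^ (8 * s)
      ≤ (B + 2 ^ (8 * s)) * (prml n : ℝ) ^ (δ / 2) := by
    have hXd1 : 1 ≤ (prml n : ℝ) ^ (δ / 2) := Real.one_le_rpow hXr1 (by positivity)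
    by_cases hsm : prml n < N0
    · have h5 : n + 1 ≤ N0 + 1 := by
        have := le_prml n
        omega
      have h6 : prml (n + 1) ≤ prml (N0 + 1) := prml_mono h5
      have h7 : Real.log (prml (n + 1)) ≤ Real.log (prml (N0 + 1)) :=
        Real.log_le_log (by exact_mod_cast hpr1 (n + 1)) (by exact_mod_cast h6)
      have h8 := hlog0 (n + 1)
      calc (Real.log (prml (n + 1))) ^ (8 * s) ≤ B := by rw [hB]; gcongr
        _ ≤ (B + 2 ^ (8 * s)) * 1 := by
            have : (0 : ℝ) ≤ 2 ^ (8 * s) := by positivity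
            linarith
        _ ≤ _ := by gcongr
    · push Not at hsm
      have hL := hX5 n hn ((le_max_right _ _).trans hsm)
      have h5 := hX4 (prml n) ((le_max_left _ _).trans hsm)
      rw [one_mul] at h5
      have h6 : Real.log (prml (n + 1)) ≤ 2 * Real.log (prml n) := by
        have h7 : (prml (n + 1) : ℝ) ≤ (prml n : ℝ) ^ 2 := by
          refine le_trans ?_ hL.next.2.1
          push_cast
          linarith
        have h8 := Real.log_le_log (by exact_mod_cast hpr1 (n + 1)) h7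
        rw [Real.log_pow] at h8
        push_cast at h8
        exact h8
      have h7 := hlog0 (n + 1)
      calc (Real.log (prml (n + 1))) ^ (8 * s) ≤ (2 * Real.log (prml n)) ^ (8 * s) := by gcongr
        _ = 2 ^ (8 * s) * (Real.log (prml n)) ^ (8 * s) := by rw [mul_pow]
        _ ≤ (B + 2 ^ (8 * s)) * (prml n : ℝ) ^ (δ / 2) := by
            gcongr
            linarith
  have hX2 : (prml n : ℝ) ^ (δ / 2) * (prml n : ℝ) ^ (1 - δ) = (prml n : ℝ) ^ (1 - δ / 2) := by
    rw [← Real.rpow_add hX0r]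
    congr 1
    ring
  have f1 : (∑ m ∈ F1, w m) ^ (2 * s)
      ≤ C ^ (2 * s) * (B + 2 ^ (8 * s)) * (prml n : ℝ) ^ (1 - δ / 2)
        * energy s (evensIn (n + 1)) w := by
    refine e1.trans ?_
    apply mul_le_mul_of_nonneg_right _ hEn
    rw [mul_pow, ← pow_mul, ← hX2]
    have h5 : 4 * (2 * s) = 8 * s := by ring
    rw [h5]
    calc C ^ (2 * s) * (Real.log (prml (n + 1))) ^ (8 * s) * (prml n : ℝ) ^ (1 - δ)
        ≤ C ^ (2 * s) * ((B + 2 ^ (8 * s)) * (prml n : ℝ) ^ (δ / 2)) * (prml n : ℝ) ^ (1 - δ) := by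
          gcongr
      _ = _ := by ring
  have f2 : (∑ m ∈ F2, w m) ^ (2 * s)
      ≤ C1 ^ (2 * s) * (prml n : ℝ) ^ (1 - δ / 2) * energy s (evensIn (n + 1)) w := by
    refine e2.trans ?_
    apply mul_le_mul_of_nonneg_right _ hEn
    rw [mul_pow, ← hX2]
    have h5 : ((prml n : ℝ) ^ ε') ^ (2 * s) ≤ (prml n : ℝ) ^ (δ / 2) := by
      rw [← Real.rpow_natCast, ← Real.rpow_mul hX0r.le]
      apply Real.rpow_le_rpow_of_exponent_le hXr1
      have h4 : ε' ≤ δ / (8 * s) := min_le_right _ _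
      push_cast
      calc ε' * (2 * s) ≤ δ / (8 * s) * (2 * s) := by gcongr
        _ = δ / 4 := by
            field_simp
            ring
        _ ≤ δ / 2 := by linarith
    calc C1 ^ (2 * s) * ((prml n : ℝ) ^ ε') ^ (2 * s) * (prml n : ℝ) ^ (1 - δ)
        ≤ C1 ^ (2 * s) * (prml n : ℝ) ^ (δ / 2) * (prml n : ℝ) ^ (1 - δ) := by gcongr
      _ = _ := by ring
  have g1 := hS0 F hFE
  have g2 := hS0 F1 hF1E
  have g3 := hS0 F2 hF2E
  have hmax : ∑ m ∈ F, w m ≤ 2 * max (∑ m ∈ F1, w m) (∑ m ∈ F2, w m) := by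
    have := le_max_left (∑ m ∈ F1, w m) (∑ m ∈ F2, w m)
    have := le_max_right (∑ m ∈ F1, w m) (∑ m ∈ F2, w m)
    linarith
  have hpow : (max (∑ m ∈ F1, w m) (∑ m ∈ F2, w m)) ^ (2 * s)
      ≤ (∑ m ∈ F1, w m) ^ (2 * s) + (∑ m ∈ F2, w m) ^ (2 * s) := by
    have g4 : 0 ≤ (∑ m ∈ F1, w m) ^ (2 * s) := by positivity
    have g5 : 0 ≤ (∑ m ∈ F2, w m) ^ (2 * s) := by positivity
    rcases max_cases (∑ m ∈ F1, w m) (∑ m ∈ F2, w m) with ⟨h5, _⟩ | ⟨h5, _⟩
    · rw [h5]; linarith
    · rw [h5]; linarith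
  calc (∑ m ∈ F, w m) ^ (2 * s) ≤ (2 * max (∑ m ∈ F1, w m) (∑ m ∈ F2, w m)) ^ (2 * s) := by gcongr
    _ = 2 ^ (2 * s) * (max (∑ m ∈ F1, w m) (∑ m ∈ F2, w m)) ^ (2 * s) := by rw [mul_pow]
    _ ≤ 2 ^ (2 * s) * ((∑ m ∈ F1, w m) ^ (2 * s) + (∑ m ∈ F2, w m) ^ (2 * s)) := by gcongr
    _ ≤ 2 ^ (2 * s) * (C ^ (2 * s) * (B + 2 ^ (8 * s)) * (prml n : ℝ) ^ (1 - δ / 2)
        * energy s (evensIn (n + 1)) w
        + C1 ^ (2 * s) * (prml n : ℝ) ^ (1 - δ / 2) * energy s (evensIn (n + 1)) w) := by gcongr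
    _ = _ := by ring

theorem main_fine2 : Stmt_FINE2 := stmt_FINE2 main_fine

end Pool.Agent.PS
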