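import Pool.Agent.Work.PS.E.POLY
import Pool.Agent.Work.PS.E.FINE

/-!
# Exceptional values of integer-valued polynomials
-/

set_option autoImplicit false

namespace Pool.Agent.PS.Energy

open Finset Polynomial
open Pool.Agent.Work.MP_484fb8_nt
open scoped Classical

/-- The number of solutions of `f(k₁) + ⋯ + f(k_s) = f(l₁) + ⋯ + f(l_s)` for an integer-valued
polynomial; the constant depends only on the leading coefficient. -/
theorem poly_sols (d : ℕ) (hd : 1 ≤ d) : ∃ s : ℕ, 1 ≤ s ∧ d ≤ 2 * s ∧ ∀ α : ℚ, α ≠ 0 →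
    ∃ C : ℝ, 0 < C ∧ ∀ (f : ℚ[X]) (a K : ℕ), f.natDegree = d → f.leadingCoeff = α →
    (∀ k : ℕ, ∃ z : ℤ, f.eval (k : ℚ) = z) → 0 < K →
    ((((Fintype.piFinset fun _ : Fin s => Ioc a (a + K)) ×ˢ
      (Fintype.piFinset fun _ : Fin s => Ioc a (a + K))).filter
        fun z => ∑ i, f.eval ((z.1 i : ℕ) : ℚ) = ∑ i, f.eval ((z.2 i : ℕ) : ℚ)).card : ℝ)
      ≤ C * (K : ℝ) ^ (2 * s - d) := by
  obtain ⟨s, hs1, hds, h⟩ := poly_nat d hd
  refine ⟨s, hs1, hds, fun α hα => ?_⟩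
  have hA : 0 < α.num.natAbs := Int.natAbs_pos.mpr (Rat.num_ne_zero.mpr hα)
  obtain ⟨C, hC, hb⟩ := h α.num.natAbs hA
  refine ⟨C, hC, fun f a K hfd hfα hint hK => ?_⟩
  -- sign and denominator
  obtain ⟨σ, hσ, hσα⟩ : ∃ σ : ℤ, σ ≠ 0 ∧ (σ : ℚ) * α = (α.num.natAbs : ℚ) := by
    rcases lt_or_gt_of_ne hα with h0 | h0
    · refine ⟨-(α.den : ℤ), neg_ne_zero.mpr (by exact_mod_cast α.den_ne_zero), ?_⟩
      have h1 : α.num < 0 := Rat.num_neg.mpr h0
      have h2 : (α.num.natAbs : ℤ) = -α.num := by omega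
      have h3 : (α.num.natAbs : ℚ) = -(α.num : ℚ) := by
        calc (α.num.natAbs : ℚ) = ((α.num.natAbs : ℤ) : ℚ) := (Int.cast_natCast _).symm
          _ = ((-α.num : ℤ) : ℚ) := by rw [h2]
          _ = -(α.num : ℚ) := Int.cast_neg _
      rw [h3, ← Rat.mul_den_eq_num]
      push_cast
      ring
    · refine ⟨(α.den : ℤ), by exact_mod_cast α.den_ne_zero, ?_⟩
      have h1 : 0 < α.num := Rat.num_pos.mpr h0
      have h2 : (α.num.natAbs : ℤ) = α.num := by omega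
      have h3 : (α.num.natAbs : ℚ) = (α.num : ℚ) := by
        calc (α.num.natAbs : ℚ) = ((α.num.natAbs : ℤ) : ℚ) := (Int.cast_natCast _).symm
          _ = (α.num : ℚ) := by rw [h2]
      rw [h3, ← Rat.mul_den_eq_num]
      push_cast
      ring
  choose z hz using hint
  obtain ⟨B, hB⟩ : ∃ B : ℕ, ∀ k ∈ Ioc a (a + K), 0 ≤ (B : ℤ) + σ * z k := by
    refine ⟨∑ k ∈ Ioc a (a + K), (σ * z k).natAbs, fun k hk => ?_⟩
    have h1 : (σ * z k).natAbs ≤ ∑ k ∈ Ioc a (a + K), (σ * z k).natAbs :=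
      single_le_sum (f := fun k => (σ * z k).natAbs) (fun _ _ => Nat.zero_le _) hk
    have h2 : -((σ * z k).natAbs : ℤ) ≤ σ * z k := by
      have := neg_abs_le (σ * z k)
      rwa [Int.abs_eq_natAbs] at this
    have h3 : ((σ * z k).natAbs : ℤ) ≤ ((∑ k ∈ Ioc a (a + K), (σ * z k).natAbs : ℕ) : ℤ) := by
      exact_mod_cast h1
    linarith
  set g : ℕ → ℕ := fun k => ((B : ℤ) + σ * z k).toNat with hg
  have hgz : ∀ k ∈ Ioc a (a + K), ((g k : ℕ) : ℤ) = B + σ * z k := fun k hk =>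
    Int.toNat_of_nonneg (hB k hk)
  set F : ℝ[X] := ((Polynomial.C (σ : ℚ) * f + Polynomial.C (B : ℚ)).map (algebraMap ℚ ℝ)) with hF
  have hFd : F.natDegree ≤ d := by
    rw [hF, natDegree_map]
    refine (natDegree_add_le _ _).trans (max_le ?_ ?_)
    · exact (natDegree_C_mul_le _ _).trans hfd.le
    · rw [natDegree_C]
      exact Nat.zero_le _
  have hFc : F.coeff d = ((α.num.natAbs : ℕ) : ℝ) := by
    rw [hF, coeff_map, coeff_add, coeff_C_mul, coeff_C_of_ne_zero (by omega), add_zero]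
    have h1 : f.coeff d = α := by rw [← hfα, leadingCoeff, hfd]
    rw [h1, hσα]
    simp
  have hFg : ∀ k ∈ Ioc a (a + K), (g k : ℝ) = F.eval (k : ℝ) := by
    intro k hk
    have h1 : F.eval (k : ℝ) = (((σ : ℚ) * f.eval (k : ℚ) + B : ℚ) : ℝ) := by
      rw [hF]
      have h2 : (k : ℝ) = algebraMap ℚ ℝ (k : ℚ) := by simp
      rw [h2, eval_map_algebraMap, aeval_algebraMap_apply]
      simp
    rw [h1, hz k]
    have h2 := hgz k hk
    have h3 : ((g k : ℕ) : ℝ) = (((g k : ℕ) : ℤ) : ℝ) := by push_cast; rfl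
    rw [h3, h2]
    push_cast
    ring
  have hmain := hb F g a K hFd hFc hFg hK
  refine le_trans (le_of_eq ?_) hmain
  norm_cast
  congr 1
  refine filter_congr fun p hp => ?_
  rw [mem_product, Fintype.mem_piFinset, Fintype.mem_piFinset] at hp
  have h1 : ∀ x : Fin s → ℕ, (∀ i, x i ∈ Ioc a (a + K)) →
      ((∑ i, g (x i) : ℕ) : ℚ) = s * B + σ * ∑ i, f.eval ((x i : ℕ) : ℚ) := by
    intro x hx
    push_cast
    rw [mul_sum]
    have h2 : ∀ i ∈ (univ : Finset (Fin s)), (g (x i) : ℚ) = B + σ * f.eval ((x i : ℕ) : ℚ) := by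
      intro i _
      have h3 := hgz (x i) (hx i)
      have h4 : ((g (x i) : ℕ) : ℚ) = (((g (x i) : ℕ) : ℤ) : ℚ) := by push_cast; rfl
      rw [h4, h3, hz (x i)]
      push_cast
      ring
    rw [sum_congr rfl h2, sum_add_distrib]
    simp
  have hσ' : (σ : ℚ) ≠ 0 := by exact_mod_cast hσ
  constructor
  · intro h2
    have h3 : ((∑ i, g (p.1 i) : ℕ) : ℚ) = ((∑ i, g (p.2 i) : ℕ) : ℚ) := by
      rw [h1 p.1 hp.1, h1 p.2 hp.2, h2]
    exact_mod_cast h3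
  · intro h2
    have h3 : ((∑ i, g (p.1 i) : ℕ) : ℚ) = ((∑ i, g (p.2 i) : ℕ) : ℚ) := by rw [h2]
    rw [h1 p.1 hp.1, h1 p.2 hp.2] at h3
    have h4 : (σ : ℚ) * ∑ i, f.eval ((p.1 i : ℕ) : ℚ) = σ * ∑ i, f.eval ((p.2 i : ℕ) : ℚ) := by
      linarith
    exact mul_left_cancel₀ hσ' h4

/-- The integers `k` of an interval for which `f k` lies in a set, against the energy. -/
theorem poly_energy (s : ℕ) (f : ℚ[X]) (a K : ℕ) (E : Finset ℕ) :
    ∃ w : ℕ → ℝ, (∀ m, 0 ≤ w m) ∧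
      energy s E w ≤ ((((Fintype.piFinset fun _ : Fin s => Ioc a (a + K)) ×ˢ
        (Fintype.piFinset fun _ : Fin s => Ioc a (a + K))).filter
        fun z => ∑ i, f.eval ((z.1 i : ℕ) : ℚ) = ∑ i, f.eval ((z.2 i : ℕ) : ℚ)).card : ℝ) ∧
      ∀ F : Finset ℕ, F ⊆ E → ∑ m ∈ F, w m =
        (((Ioc a (a + K)).filter fun k : ℕ => ∃ m ∈ F, f.eval (k : ℚ) = (m : ℚ)).card : ℝ) := by
  set S := (Ioc a (a + K)).filter fun k : ℕ => ∃ m ∈ E, f.eval (k : ℚ) = (m : ℚ) with hS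
  have hch : ∀ k : ℕ, ∃ m : ℕ, k ∈ S → m ∈ E ∧ f.eval (k : ℚ) = (m : ℚ) := by
    intro k
    by_cases hk : k ∈ S
    · obtain ⟨m, hm, hfm⟩ := (mem_filter.mp hk).2
      exact ⟨m, fun _ => ⟨hm, hfm⟩⟩
    · exact ⟨0, fun h => absurd h hk⟩
  choose φ hφ using hch
  refine ⟨fun m => ((S.filter fun k => φ k = m).card : ℝ), fun m => Nat.cast_nonneg _, ?_, ?_⟩
  · refine (energy_push s E S φ).trans ?_
    norm_cast
    apply card_le_card
    intro p hp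
    rw [mem_filter, mem_product, Fintype.mem_piFinset, Fintype.mem_piFinset] at hp ⊢
    obtain ⟨⟨h1, h2⟩, h3⟩ := hp
    refine ⟨⟨fun i => (mem_filter.mp (h1 i)).1, fun i => (mem_filter.mp (h2 i)).1⟩, ?_⟩
    have h4 : ∑ i, f.eval ((p.1 i : ℕ) : ℚ) = ∑ i, (φ (p.1 i) : ℚ) :=
      sum_congr rfl fun i _ => (hφ _ (h1 i)).2
    have h5 : ∑ i, f.eval ((p.2 i : ℕ) : ℚ) = ∑ i, (φ (p.2 i) : ℚ) :=
      sum_congr rfl fun i _ => (hφ _ (h2 i)).2
    rw [h4, h5]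
    exact_mod_cast h3
  · intro F hF
    have h1 := card_eq_sum_card_fiberwise (s := (Ioc a (a + K)).filter
      fun k : ℕ => ∃ m ∈ F, f.eval (k : ℚ) = (m : ℚ)) (t := F) (f := φ) (fun k hk => by
        have hk' : k ∈ (Ioc a (a + K)).filter fun k : ℕ => ∃ m ∈ F, f.eval (k : ℚ) = (m : ℚ) := hk
        rw [mem_filter] at hk'
        obtain ⟨hkI, m, hm, hfm⟩ := hk'
        have hkS : k ∈ S := mem_filter.mpr ⟨hkI, m, hF hm, hfm⟩
        have h2 := (hφ k hkS).2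
        rw [hfm] at h2
        have h3 : m = φ k := by exact_mod_cast h2
        show φ k ∈ (F : Set ℕ)
        rw [← h3]
        exact hm)
    rw [h1]
    push_cast
    refine sum_congr rfl fun m hm => ?_
    norm_cast
    congr 1
    ext k
    simp only [mem_filter, hS]
    constructor
    · rintro ⟨⟨hkI, m', hm', hfm'⟩, hφk⟩
      refine ⟨⟨hkI, m, hm, ?_⟩, hφk⟩
      have hkS : k ∈ S := mem_filter.mpr ⟨hkI, m', hm', hfm'⟩
      rw [(hφ k hkS).2, hφk]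
    · rintro ⟨⟨hkI, m', hm', hfm'⟩, hφk⟩
      exact ⟨⟨hkI, m', hF hm', hfm'⟩, hφk⟩

/-- Exceptional values of polynomials: the bound is uniform in the lower coefficients. -/
def PolyExc (δ c : ℝ) (r : ℕ → ℕ) : Prop := ∀ d : ℕ, 1 ≤ d → ∃ s : ℕ, 1 ≤ s ∧ d ≤ 2 * s ∧
    ∀ α : ℚ, α ≠ 0 →
    ∀ ε : ℝ, 0 < ε → ∃ C : ℝ, 0 < C ∧ ∀ n : ℕ, 1 ≤ n → ∀ (f : ℚ[X]) (a K : ℕ), f.natDegree = d →
    f.leadingCoeff = α → (∀ k : ℕ, ∃ z : ℤ, f.eval (k : ℚ) = z) → 0 < K →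
    (((Ioc a (a + K)).filter fun k : ℕ => ∃ m ∈ evensIn (n + 1), f.eval (k : ℚ) = (m : ℚ) ∧
      Exc2 c ε r n m).card : ℝ) ^ (2 * s)
      ≤ C * (prml n : ℝ) ^ (1 - δ) * (K : ℝ) ^ (2 * s - d)

theorem poly_exc (δ c : ℝ) (r : ℕ → ℕ)
    (h : ∀ ε : ℝ, 0 < ε → ∀ s : ℕ, 1 ≤ s → ∃ C' : ℝ, 0 < C' ∧ ∀ n : ℕ, 1 ≤ n → ∀ w : ℕ → ℝ,
    (∀ m ∈ evensIn (n + 1), 0 ≤ w m) →
    (∑ m ∈ (evensIn (n + 1)).filter (fun m => Exc2 c ε r n m), w m) ^ (2 * s)
      ≤ C' * (prml n : ℝ) ^ (1 - δ) * energy s (evensIn (n + 1)) w) : PolyExc δ c r := by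
  intro d hd
  obtain ⟨s, hs1, hds, hsol⟩ := poly_sols d hd
  refine ⟨s, hs1, hds, fun α hα ε hε => ?_⟩
  obtain ⟨C, hC, hb⟩ := hsol α hα
  obtain ⟨C', hC'0, hC'⟩ := h ε hε s hs1
  refine ⟨C' * C, by positivity, fun n hn f a K hfd hfα hint hK => ?_⟩
  obtain ⟨w, hw0, hwE, hwF⟩ := poly_energy s f a K (evensIn (n + 1))
  have h1 := hC' n hn w (fun m _ => hw0 m)
  have h2 := hb f a K hfd hfα hint hK
  set F := (evensIn (n + 1)).filter (fun m => Exc2 c ε r n m) with hF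
  have h3 := hwF F (filter_subset _ _)
  rw [h3] at h1
  have h4 : ((Ioc a (a + K)).filter fun k : ℕ => ∃ m ∈ evensIn (n + 1), f.eval (k : ℚ) = (m : ℚ) ∧
      Exc2 c ε r n m)
      = ((Ioc a (a + K)).filter fun k : ℕ => ∃ m ∈ F, f.eval (k : ℚ) = (m : ℚ)) := by
    ext k
    simp only [hF, mem_filter]
    constructor
    · rintro ⟨hk, m, hm, hfm, hn⟩
      exact ⟨hk, m, ⟨hm, hn⟩, hfm⟩
    · rintro ⟨hk, m, ⟨hm, hn⟩, hfm⟩
      exact ⟨hk, m, hm, hfm, hn⟩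
  rw [h4]
  have h5 : 0 ≤ energy s (evensIn (n + 1)) w := energy_nonneg s _ w fun m _ => hw0 m
  calc _ ≤ C' * (prml n : ℝ) ^ (1 - δ) * energy s (evensIn (n + 1)) w := h1
    _ ≤ C' * (prml n : ℝ) ^ (1 - δ) * (C * (K : ℝ) ^ (2 * s - d)) := by
        have := hwE.trans h2
        gcongr
    _ = _ := by ring

/-- Power saving in intervals which are not too short. -/
theorem poly_interval (δ c : ℝ) (r : ℕ → ℕ) (hδ : 0 < δ) (hδ1 : δ ≤ 1) (h : PolyExc δ c r)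
    (d : ℕ) (hd : 1 ≤ d) :
    ∃ η : ℝ, 0 < η ∧ ∀ α : ℚ, α ≠ 0 →
    ∀ ε : ℝ, 0 < ε → ∃ C : ℝ, ∀ n : ℕ, 1 ≤ n → ∀ (f : ℚ[X]) (a K : ℕ), f.natDegree = d →
    f.leadingCoeff = α → (∀ k : ℕ, ∃ z : ℤ, f.eval (k : ℚ) = z) →
    (prml n : ℝ) ^ (1 - η) ≤ (K : ℝ) ^ d →
    (((Ioc a (a + K)).filter fun k : ℕ => ∃ m ∈ evensIn (n + 1), f.eval (k : ℚ) = (m : ℚ) ∧
      Exc2 c ε r n m).card : ℝ) ≤ C * (K : ℝ) ^ (1 - η) := by
  obtain ⟨s, hs1, hds, hs⟩ := h d hd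
  have hsr : (1 : ℝ) ≤ s := by exact_mod_cast hs1
  have hdr : (1 : ℝ) ≤ d := by exact_mod_cast hd
  set η : ℝ := min (δ / 2) (d * δ / (4 * s)) with hη
  have hη0 : 0 < η := lt_min (by positivity) (by positivity)
  have hη1 : η ≤ δ / 2 := min_le_left _ _
  have hη2 : η ≤ d * δ / (4 * s) := min_le_right _ _
  refine ⟨η, hη0, fun α hα ε hε => ?_⟩
  obtain ⟨C, hC, hb⟩ := hs α hα ε hε
  refine ⟨C ^ (1 / (2 * (s : ℝ))), fun n hn f a K hfd hfα hint hKn => ?_⟩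
  have hpr : (1 : ℝ) ≤ prml n := by
    have : 1 ≤ prml n := by have := le_prml n; omega
    exact_mod_cast this
  have hpr0 : (0 : ℝ) < prml n := by linarith
  have hK : 0 < K := by
    rcases Nat.eq_zero_or_pos K with h0 | h0
    · exfalso
      subst h0
      have h1 : (0 : ℝ) < (prml n : ℝ) ^ (1 - η) := by positivity
      rw [Nat.cast_zero, zero_pow (by omega)] at hKn
      linarith
    · exact h0
  have hKr : (1 : ℝ) ≤ K := by exact_mod_cast hK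
  have hK0 : (0 : ℝ) < K := by linarith
  have h1 := hb n hn f a K hfd hfα hint hK
  have h2 : (prml n : ℝ) ^ (1 - δ) ≤ (K : ℝ) ^ ((d : ℝ) * (1 - δ / 2)) := by
    have h3 : (prml n : ℝ) ^ (1 - δ) ≤ ((prml n : ℝ) ^ (1 - η)) ^ (1 - δ / 2) := by
      rw [← Real.rpow_mul hpr0.le]
      apply Real.rpow_le_rpow_of_exponent_le hpr
      nlinarith
    have h4 : ((K : ℝ) ^ d) ^ (1 - δ / 2) = (K : ℝ) ^ ((d : ℝ) * (1 - δ / 2)) := by
      rw [← Real.rpow_natCast, ← Real.rpow_mul hK0.le]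
    rw [← h4]
    refine h3.trans ?_
    exact Real.rpow_le_rpow (by positivity) hKn (by linarith)
  have h3 : C * (prml n : ℝ) ^ (1 - δ) * (K : ℝ) ^ (2 * s - d)
      ≤ (C ^ (1 / (2 * (s : ℝ))) * (K : ℝ) ^ (1 - η)) ^ (2 * s) := by
    have h4 : (C ^ (1 / (2 * (s : ℝ)))) ^ (2 * s) = C := by
      rw [← Real.rpow_natCast, ← Real.rpow_mul hC.le]
      push_cast
      rw [one_div_mul_cancel (by positivity), Real.rpow_one]
    have h5 : ((K : ℝ) ^ (1 - η)) ^ (2 * s) = (K : ℝ) ^ ((1 - η) * (2 * s)) := by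
      rw [← Real.rpow_natCast, ← Real.rpow_mul hK0.le]
      congr 1
      push_cast
      ring
    have h6 : (K : ℝ) ^ (2 * s - d) = (K : ℝ) ^ (2 * (s : ℝ) - d) := by
      rw [← Real.rpow_natCast]
      congr 1
      rw [Nat.cast_sub hds]
      push_cast
      ring
    rw [mul_pow, h4, h5, h6, mul_assoc]
    apply mul_le_mul_of_nonneg_left _ hC.le
    calc (prml n : ℝ) ^ (1 - δ) * (K : ℝ) ^ (2 * (s : ℝ) - d)
        ≤ (K : ℝ) ^ ((d : ℝ) * (1 - δ / 2)) * (K : ℝ) ^ (2 * (s : ℝ) - d) := by gcongr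
      _ = (K : ℝ) ^ (2 * (s : ℝ) - d * δ / 2) := by
          rw [← Real.rpow_add hK0]
          congr 1
          ring
      _ ≤ (K : ℝ) ^ ((1 - η) * (2 * s)) := by
          apply Real.rpow_le_rpow_of_exponent_le hKr
          have h7 : η * (2 * s) ≤ d * δ / (4 * s) * (2 * s) := by gcongr
          have h8 : d * δ / (4 * s) * (2 * s) = d * δ / 2 := by
            field_simp
            ring
          linarith
  exact le_of_pow_le_pow_left₀ (by omega) (by positivity) (h1.trans h3)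

/-- Trivial upper bound for the values of a polynomial. -/
theorem poly_upper (f : ℚ[X]) : ∃ B : ℝ, 1 ≤ B ∧ ∀ k : ℕ, 1 ≤ k →
    ((f.eval (k : ℚ) : ℚ) : ℝ) ≤ B * (k : ℝ) ^ f.natDegree := by
  refine ⟨1 + ∑ i ∈ range (f.natDegree + 1), |((f.coeff i : ℚ) : ℝ)|, ?_, fun k hk => ?_⟩
  · have : 0 ≤ ∑ i ∈ range (f.natDegree + 1), |((f.coeff i : ℚ) : ℝ)| :=
      sum_nonneg fun i _ => abs_nonneg _
    linarith
  · have hk1 : (1 : ℝ) ≤ k := by exact_mod_cast hk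
    rw [eval_eq_sum_range]
    push_cast
    calc ∑ i ∈ range (f.natDegree + 1), ((f.coeff i : ℚ) : ℝ) * (k : ℝ) ^ i
        ≤ ∑ i ∈ range (f.natDegree + 1), |((f.coeff i : ℚ) : ℝ)| * (k : ℝ) ^ f.natDegree := by
          refine sum_le_sum fun i hi => ?_
          have h1 : i ≤ f.natDegree := by have := mem_range.mp hi; omega
          have h2 : (k : ℝ) ^ i ≤ (k : ℝ) ^ f.natDegree := pow_le_pow_right₀ hk1 h1
          have h3 := le_abs_self ((f.coeff i : ℚ) : ℝ)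
          have h4 : 0 ≤ (k : ℝ) ^ i := by positivity
          calc ((f.coeff i : ℚ) : ℝ) * (k : ℝ) ^ i ≤ |((f.coeff i : ℚ) : ℝ)| * (k : ℝ) ^ i := by
                gcongr
            _ ≤ |((f.coeff i : ℚ) : ℝ)| * (k : ℝ) ^ f.natDegree := by gcongr
      _ = (∑ i ∈ range (f.natDegree + 1), |((f.coeff i : ℚ) : ℝ)|) * (k : ℝ) ^ f.natDegree := by
          rw [sum_mul]
      _ ≤ _ := by
          gcongr
          linarith

/-- All but a power-saving proportion of the values of a fixed polynomial. -/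
theorem poly_all (δ c : ℝ) (r : ℕ → ℕ) (hδ : 0 < δ) (hδ1 : δ ≤ 1) (h : PolyExc δ c r)
    (d : ℕ) (hd : 1 ≤ d) :
    ∃ η : ℝ, 0 < η ∧ ∀ f : ℚ[X], f.natDegree = d → 0 < f.leadingCoeff →
    (∀ k : ℕ, ∃ z : ℤ, f.eval (k : ℚ) = z) → ∀ ε : ℝ, 0 < ε → ∃ C : ℝ, ∀ K : ℕ, 1 ≤ K →
    (((Icc 1 K).filter fun k : ℕ => ∃ n : ℕ, 1 ≤ n ∧ ∃ m ∈ evensIn (n + 1),
      f.eval (k : ℚ) = (m : ℚ) ∧
      Exc2 c ε r n m).card : ℝ)
      ≤ C * (K : ℝ) ^ (1 - η) := by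
  obtain ⟨s, hs1, hds, hs⟩ := h d hd
  have hsr : (1 : ℝ) ≤ s := by exact_mod_cast hs1
  have hdr : (1 : ℝ) ≤ d := by exact_mod_cast hd
  set η0 : ℝ := d * δ / (2 * s) with hη0
  have hη0p : 0 < η0 := by positivity
  refine ⟨η0 / 2, by positivity, fun f hfd hlc hint ε hε => ?_⟩
  obtain ⟨C, hC, hb⟩ := hs f.leadingCoeff hlc.ne' ε hε
  obtain ⟨B, hB1, hB⟩ := poly_upper f
  rw [hfd] at hB
  -- the constant
  set C1 : ℝ := (C * B ^ (1 - δ)) ^ (1 / (2 * (s : ℝ))) with hC1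
  have hC1p : 0 < C1 := by positivity
  obtain ⟨X1, hX1⟩ := log_pow_le_rpow 1 (η0 / 2) 1 (by positivity) one_pos
  set Lc : ℝ := Real.log (X1 + 1) + 1 with hLc
  have hLc1 : 1 ≤ Lc := by
    have : 0 ≤ Real.log ((X1 : ℝ) + 1) := Real.log_nonneg (by
      have : (0 : ℝ) ≤ X1 := Nat.cast_nonneg _
      linarith)
    linarith
  refine ⟨(2 * (Real.log B + 2 + d)) * (2 * Lc) * C1, fun K hK => ?_⟩
  have hKr : (1 : ℝ) ≤ K := by exact_mod_cast hK
  have hK0 : (0 : ℝ) < K := by linarith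
  have hlogK : 0 ≤ Real.log K := Real.log_nonneg hKr
  have hlogB : 0 ≤ Real.log B := Real.log_nonneg hB1
  set N : ℕ := ⌊2 * (Real.log B + d * Real.log K)⌋₊ + 1 with hN
  -- only `n < N` matter
  set V : ℕ → Finset ℕ := fun n => (Ioc 0 (0 + K)).filter fun k : ℕ => ∃ m ∈ evensIn (n + 1),
      f.eval (k : ℚ) = (m : ℚ) ∧
      Exc2 c ε r n m with hV
  have hn_lt : ∀ n k m : ℕ, 1 ≤ k → k ≤ K → m ∈ evensIn (n + 1) → f.eval (k : ℚ) = (m : ℚ) →
      (prml n : ℝ) ≤ B * (K : ℝ) ^ d := by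
    intro n k m hk1 hkK hm hfm
    have h1 := hB k hk1
    rw [hfm] at h1
    have h2 : prml n ≤ m := by
      unfold evensIn primorialInterval at hm
      rw [mem_filter, mem_Icc, Nat.add_sub_cancel] at hm
      omega
    have h3 : (prml n : ℝ) ≤ m := by exact_mod_cast h2
    have h4 : (k : ℝ) ≤ K := by exact_mod_cast hkK
    calc (prml n : ℝ) ≤ m := h3
      _ ≤ B * (k : ℝ) ^ d := by exact_mod_cast h1
      _ ≤ B * (K : ℝ) ^ d := by gcongr
  have hn_small : ∀ n : ℕ, (prml n : ℝ) ≤ B * (K : ℝ) ^ d → n < N := by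
    intro n hn
    have h1 : (2 : ℝ) ^ n ≤ prml n := by
      have : 2 ^ n ≤ prml n := by
        unfold prml
        calc 2 ^ n = ∏ _i ∈ range n, 2 := by simp
          _ ≤ ∏ i ∈ range n, Nat.nth Nat.Prime i :=
              prod_le_prod (fun _ _ => by norm_num) fun i _ => (Nat.prime_nth_prime i).two_le
      exact_mod_cast this
    have h2 : Real.log ((2 : ℝ) ^ n) ≤ Real.log (B * (K : ℝ) ^ d) :=
      Real.log_le_log (by positivity) (h1.trans hn)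
    rw [Real.log_pow, Real.log_mul (by positivity) (by positivity), Real.log_pow] at h2
    have h3 := Real.log_two_gt_d9
    have h4 : (n : ℝ) ≤ 2 * (Real.log B + d * Real.log K) := by
      have h5 : (0 : ℝ) ≤ n := Nat.cast_nonneg _
      nlinarith
    have h5 := Nat.le_floor h4
    omega
  have hsub : ((Icc 1 K).filter fun k : ℕ => ∃ n : ℕ, 1 ≤ n ∧ ∃ m ∈ evensIn (n + 1),
      f.eval (k : ℚ) = (m : ℚ) ∧
      Exc2 c ε r n m)
      ⊆ ((range N).filter fun n => 1 ≤ n ∧ (prml n : ℝ) ≤ B * (K : ℝ) ^ d).biUnion V := by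
    intro k hk
    rw [mem_filter, mem_Icc] at hk
    obtain ⟨⟨hk1, hkK⟩, n, hn, m, hm, hfm, hnot⟩ := hk
    have h1 := hn_lt n k m hk1 hkK hm hfm
    rw [mem_biUnion]
    refine ⟨n, mem_filter.mpr ⟨mem_range.mpr (hn_small n h1), hn, h1⟩, ?_⟩
    rw [hV]
    simp only [mem_filter, mem_Ioc]
    exact ⟨⟨by omega, by omega⟩, m, hm, hfm, hnot⟩
  have hVn : ∀ n ∈ (range N).filter (fun n => 1 ≤ n ∧ (prml n : ℝ) ≤ B * (K : ℝ) ^ d),
      ((V n).card : ℝ) ≤ C1 * (K : ℝ) ^ (1 - η0) := by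
    intro n hn
    obtain ⟨_, hn1, hnB⟩ := mem_filter.mp hn
    have h1 := hb n hn1 f 0 K hfd rfl hint hK
    have hpr : (0 : ℝ) < prml n := by
      have : 0 < prml n := by have := le_prml n; omega
      exact_mod_cast this
    have h2 : C * (prml n : ℝ) ^ (1 - δ) * (K : ℝ) ^ (2 * s - d)
        ≤ (C1 * (K : ℝ) ^ (1 - η0)) ^ (2 * s) := by
      have h3 : (prml n : ℝ) ^ (1 - δ) ≤ (B * (K : ℝ) ^ d) ^ (1 - δ) :=
        Real.rpow_le_rpow hpr.le hnB (by linarith)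
      have h4 : C1 ^ (2 * s) = C * B ^ (1 - δ) := by
        rw [hC1, ← Real.rpow_natCast, ← Real.rpow_mul (by positivity)]
        push_cast
        rw [one_div_mul_cancel (by positivity), Real.rpow_one]
      have h5 : ((K : ℝ) ^ (1 - η0)) ^ (2 * s) = (K : ℝ) ^ (2 * (s : ℝ) - d * δ) := by
        rw [← Real.rpow_natCast, ← Real.rpow_mul hK0.le]
        congr 1
        push_cast
        rw [hη0]
        field_simp
      have h6 : (K : ℝ) ^ (2 * s - d) = (K : ℝ) ^ (2 * (s : ℝ) - d) := by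
        rw [← Real.rpow_natCast]
        congr 1
        rw [Nat.cast_sub hds]
        push_cast
        ring
      have h7 : ((K : ℝ) ^ d) ^ (1 - δ) = (K : ℝ) ^ ((d : ℝ) * (1 - δ)) := by
        rw [← Real.rpow_natCast, ← Real.rpow_mul hK0.le]
      rw [mul_pow, h4, h5, h6]
      calc C * (prml n : ℝ) ^ (1 - δ) * (K : ℝ) ^ (2 * (s : ℝ) - d)
          ≤ C * (B * (K : ℝ) ^ d) ^ (1 - δ) * (K : ℝ) ^ (2 * (s : ℝ) - d) := by gcongr
        _ = C * (B ^ (1 - δ) * (K : ℝ) ^ ((d : ℝ) * (1 - δ))) * (K : ℝ) ^ (2 * (s : ℝ) - d) := by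
            rw [Real.mul_rpow (by positivity) (by positivity), h7]
        _ = C * B ^ (1 - δ) * ((K : ℝ) ^ ((d : ℝ) * (1 - δ)) * (K : ℝ) ^ (2 * (s : ℝ) - d)) := by
            ring
        _ = C * B ^ (1 - δ) * (K : ℝ) ^ (2 * (s : ℝ) - d * δ) := by
            rw [← Real.rpow_add hK0]
            congr 2
            ring
    have h3 := h1.trans h2
    exact le_of_pow_le_pow_left₀ (by omega) (by positivity) h3
  have hcard : ((((Icc 1 K).filter fun k : ℕ => ∃ n : ℕ, 1 ≤ n ∧ ∃ m ∈ evensIn (n + 1),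
      f.eval (k : ℚ) = (m : ℚ) ∧
      Exc2 c ε r n m).card : ℕ) : ℝ)
      ≤ N * (C1 * (K : ℝ) ^ (1 - η0)) := by
    have h1 := (card_le_card hsub).trans card_biUnion_le
    calc _ ≤ ((∑ n ∈ (range N).filter (fun n => 1 ≤ n ∧ (prml n : ℝ) ≤ B * (K : ℝ) ^ d),
            (V n).card : ℕ) : ℝ) := by exact_mod_cast h1
      _ = ∑ n ∈ (range N).filter (fun n => 1 ≤ n ∧ (prml n : ℝ) ≤ B * (K : ℝ) ^ d),
            ((V n).card : ℝ) := by push_cast; rfl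
      _ ≤ ∑ n ∈ (range N).filter (fun n => 1 ≤ n ∧ (prml n : ℝ) ≤ B * (K : ℝ) ^ d),
            C1 * (K : ℝ) ^ (1 - η0) := sum_le_sum hVn
      _ ≤ ∑ n ∈ range N, C1 * (K : ℝ) ^ (1 - η0) :=
          sum_le_sum_of_subset_of_nonneg (filter_subset _ _) fun _ _ _ => by positivity
      _ = N * (C1 * (K : ℝ) ^ (1 - η0)) := by rw [sum_const, card_range, nsmul_eq_mul]
  refine hcard.trans ?_
  -- the logarithm
  have hlogle : 1 + Real.log K ≤ 2 * Lc * (K : ℝ) ^ (η0 / 2) := by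
    have hKη : 1 ≤ (K : ℝ) ^ (η0 / 2) := Real.one_le_rpow hKr (by positivity)
    rcases Nat.lt_or_ge K X1 with h1 | h1
    · have h2 : Real.log K ≤ Lc := by
        have : Real.log K ≤ Real.log ((X1 : ℝ) + 1) := by
          apply Real.log_le_log hK0
          have : (K : ℝ) ≤ X1 := by exact_mod_cast h1.le
          linarith
        linarith
      nlinarith
    · have h2 := hX1 K h1
      rw [pow_one, one_mul] at h2
      nlinarith
  have hNle : (N : ℝ) ≤ 2 * (Real.log B + 2 + d) * (1 + Real.log K) := by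
    have h1 : (⌊2 * (Real.log B + d * Real.log K)⌋₊ : ℝ) ≤ 2 * (Real.log B + d * Real.log K) :=
      Nat.floor_le (by positivity)
    rw [hN]
    push_cast
    have h2 : 0 ≤ Real.log B * Real.log K := by positivity
    have h3 : 0 ≤ (d : ℝ) * Real.log K := by positivity
    nlinarith
  calc (N : ℝ) * (C1 * (K : ℝ) ^ (1 - η0))
      ≤ (2 * (Real.log B + 2 + d) * (1 + Real.log K)) * (C1 * (K : ℝ) ^ (1 - η0)) := by gcongr
    _ ≤ (2 * (Real.log B + 2 + d) * (2 * Lc * (K : ℝ) ^ (η0 / 2))) * (C1 * (K : ℝ) ^ (1 - η0)) := by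
        gcongr
    _ = (2 * (Real.log B + 2 + d)) * (2 * Lc) * C1 * ((K : ℝ) ^ (η0 / 2) * (K : ℝ) ^ (1 - η0)) := by
        ring
    _ = (2 * (Real.log B + 2 + d)) * (2 * Lc) * C1 * (K : ℝ) ^ (1 - η0 / 2) := by
        rw [← Real.rpow_add hK0]
        congr 2
        ring

end Pool.Agent.PS.Energy
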