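import Pool.Agent.Work.PS.E.Energy

/-!
# The minor arc contribution against a weight of small additive energy
-/

set_option autoImplicit false

namespace Pool.Agent.PS

open Finset ArithmeticFunction
open Pool.Agent.Circle (e parseval full_sum e_add e_neg conj_e)
open Pool.Agent.PS.Circ

namespace Energy

/-- Weighted power mean inequality. -/
theorem jensen {ι : Type*} (S : Finset ι) (g W : ι → ℝ) (hg : ∀ i ∈ S, 0 ≤ g i)
    (hW : ∀ i ∈ S, 0 ≤ W i) (n : ℕ) :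
    (∑ i ∈ S, g i * W i) ^ (n + 1) ≤ (∑ i ∈ S, g i) ^ n * ∑ i ∈ S, g i * W i ^ (n + 1) := by
  set G := ∑ i ∈ S, g i with hG
  have hG0 : 0 ≤ G := sum_nonneg hg
  rcases hG0.eq_or_lt with h0 | h0
  · have h1 : ∀ i ∈ S, g i = 0 := (sum_eq_zero_iff_of_nonneg hg).mp (by rw [← hG]; exact h0.symm)
    have h2 : ∑ i ∈ S, g i * W i = 0 := sum_eq_zero fun i hi => by rw [h1 i hi, zero_mul]
    have h3 : ∑ i ∈ S, g i * W i ^ (n + 1) = 0 := sum_eq_zero fun i hi => by rw [h1 i hi, zero_mul]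
    rw [h2, h3, mul_zero, zero_pow (Nat.succ_ne_zero n)]
  · have h1 := Real.pow_arith_mean_le_arith_mean_pow S (fun i => g i / G) W
      (fun i hi => div_nonneg (hg i hi) hG0) (by rw [← sum_div, ← hG, div_self h0.ne']) hW (n + 1)
    have h2 : ∑ i ∈ S, g i / G * W i = (∑ i ∈ S, g i * W i) / G := by
      rw [sum_div]
      exact sum_congr rfl fun i _ => by ring
    have h3 : ∑ i ∈ S, g i / G * W i ^ (n + 1) = (∑ i ∈ S, g i * W i ^ (n + 1)) / G := by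
      rw [sum_div]
      exact sum_congr rfl fun i _ => by ring
    rw [h2, h3, div_pow, div_le_div_iff₀ (by positivity) h0] at h1
    have h4 : (∑ i ∈ S, g i * W i) ^ (n + 1) * G ≤ (G ^ n * ∑ i ∈ S, g i * W i ^ (n + 1)) * G := by
      calc (∑ i ∈ S, g i * W i) ^ (n + 1) * G ≤ (∑ i ∈ S, g i * W i ^ (n + 1)) * G ^ (n + 1) := h1
        _ = (G ^ n * ∑ i ∈ S, g i * W i ^ (n + 1)) * G := by ring
    exact le_of_mul_le_mul_right h4 h0

/-- The Fourier transform of the minor arc contribution. -/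
theorem diff_ft {P R H : ℕ} (hP : 0 < P) (hR : 0 < R) (hdiv : ∀ q, 0 < q → q ≤ P → q ∣ R)
    (hH : 4 * H * P ^ 2 < R) {I₁ I₂ : Finset ℕ} (h₁ : ∀ n ∈ I₁, 4 * n < R)
    (h₂ : ∀ n ∈ I₂, 4 * n < R) {f₁ f₂ : ℕ → ℂ} {U : ℝ} (hU : 0 ≤ U)
    (hmin : ∀ k ∈ range R, (∀ q a : ℕ, 0 < q → q ≤ P → a ≤ q → a.Coprime q →
      (H : ℝ) / R < |(k : ℝ) / R - (a : ℝ) / q|) →
      ‖∑ n ∈ I₁, f₁ n * e (n * ((k : ℝ) / R))‖ ≤ U) (k : ℕ) (hk : k ∈ range R) :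
    ‖∑ m ∈ range R, (cv I₁ I₂ f₁ f₂ m - Maj P R H I₁ I₂ f₁ f₂ m) * e (m * ((k : ℝ) / R))‖
      ≤ U * ‖∑ n ∈ I₂, f₂ n * e (n * ((k : ℝ) / R))‖ ∧
    ‖∑ m ∈ range R, (cv I₁ I₂ f₁ f₂ m - Maj P R H I₁ I₂ f₁ f₂ m) * e (m * ((k : ℝ) / R))‖
      ≤ ‖∑ n ∈ I₁, f₁ n * e (n * ((k : ℝ) / R))‖ * ‖∑ n ∈ I₂, f₂ n * e (n * ((k : ℝ) / R))‖ := by
  have h4 : ∑ m ∈ range R, (cv I₁ I₂ f₁ f₂ m - Maj P R H I₁ I₂ f₁ f₂ m) * e (m * ((k : ℝ) / R))
      = (1 - (((TT P H).filter fun t => (R : ℤ) ∣ (k : ℤ) - ww R t).card : ℂ)) *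
        ((∑ n ∈ I₁, f₁ n * e (n * ((k : ℝ) / R))) *
          ∑ n ∈ I₂, f₂ n * e (n * ((k : ℝ) / R))) := by
    simp_rw [sub_mul]
    rw [sum_sub_distrib, cv_ft I₁ I₂ h₁ h₂, maj_ft hR hdiv]
    ring
  rw [h4]
  have h5 : ((TT P H).filter fun t => (R : ℤ) ∣ (k : ℤ) - ww R t).card ≤ 1 := by
    rw [card_le_one]
    intro s hs t ht
    rw [mem_filter] at hs ht
    refine arcs_disjoint hR hP hdiv hH s t hs.1 ht.1 ?_
    have : ww R s - ww R t = ((k : ℤ) - ww R t) - ((k : ℤ) - ww R s) := by ring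
    rw [this]
    exact dvd_sub ht.2 hs.2
  rcases Nat.eq_zero_or_pos ((TT P H).filter fun t => (R : ℤ) ∣ (k : ℤ) - ww R t).card with h6 | h6
  · rw [h6]
    have h7 : ∀ t ∈ TT P H, ¬ (R : ℤ) ∣ (k : ℤ) - ww R t := by
      rw [card_eq_zero, filter_eq_empty_iff] at h6
      exact fun t ht => h6 ht
    have h8 := hmin k hk (minor_of_empty hR hdiv h7)
    rw [Nat.cast_zero, sub_zero, one_mul, norm_mul]
    refine ⟨?_, le_rfl⟩
    gcongr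
  · have h7 : ((TT P H).filter fun t => (R : ℤ) ∣ (k : ℤ) - ww R t).card = 1 := by omega
    rw [h7, Nat.cast_one, sub_self, zero_mul, norm_zero]
    constructor
    · positivity
    · positivity

/-- Plancherel. -/
theorem plancherel {R : ℕ} (hR : 0 < R) (D : ℕ → ℂ) (Z : Finset ℕ) (hZ : ∀ m ∈ Z, m < R)
    (w : ℕ → ℝ) :
    ∑ k ∈ range R, (∑ m ∈ range R, D m * e (m * ((k : ℝ) / R))) *
      (starRingEnd ℂ) (∑ m ∈ Z, (w m : ℂ) * e (m * ((k : ℝ) / R))) = R * ∑ m ∈ Z, (w m : ℂ) * D m := by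
  have hR0 : (R : ℝ) ≠ 0 := by exact_mod_cast hR.ne'
  have h1 : ∀ k ∈ range R, (∑ m ∈ range R, D m * e (m * ((k : ℝ) / R))) *
      (starRingEnd ℂ) (∑ m ∈ Z, (w m : ℂ) * e (m * ((k : ℝ) / R)))
      = ∑ b ∈ Z, ∑ m ∈ range R, (D m * w b) * e (k * (((m : ℤ) - (b : ℤ) : ℤ) / (R : ℝ))) := by
    intro k _
    rw [map_sum, mul_sum]
    refine sum_congr rfl fun b _ => ?_
    rw [sum_mul]
    refine sum_congr rfl fun m _ => ?_
    rw [map_mul, conj_e, Complex.conj_ofReal]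
    have h2 : (k : ℝ) * (((m : ℤ) - (b : ℤ) : ℤ) / (R : ℝ)) = m * ((k : ℝ) / R) + -(b * ((k : ℝ) / R)) := by
      push_cast
      field_simp
      ring
    rw [h2, e_add]
    ring
  rw [sum_congr rfl h1, sum_comm, mul_sum]
  refine sum_congr rfl fun b hb => ?_
  rw [sum_comm]
  have h2 : ∀ m ∈ range R, ∑ k ∈ range R, (D m * w b) * e (k * (((m : ℤ) - (b : ℤ) : ℤ) / (R : ℝ)))
      = if m = b then (R : ℂ) * (w b * D b) else 0 := by
    intro m hm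
    have hm' := mem_range.mp hm
    have hb' := hZ b hb
    rw [← mul_sum, full_sum R hR]
    by_cases hmb : m = b
    · subst hmb
      rw [if_pos (by simp), if_pos rfl]
      ring
    · rw [if_neg hmb, if_neg, mul_zero]
      intro hdvd
      apply hmb
      have h3 : ((m : ℤ) - b) = 0 := by
        apply Int.eq_zero_of_abs_lt_dvd hdvd
        rw [abs_lt]
        constructor <;> omega
      omega
  rw [sum_congr rfl h2, sum_ite_eq', if_pos (mem_range.mpr (hZ b hb))]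

/-- The minor arcs against a weight of small energy. -/
theorem circ_energy (P R H : ℕ) (hP : 0 < P) (hR : 0 < R) (hdiv : ∀ q, 0 < q → q ≤ P → q ∣ R)
    (hH : 4 * H * P ^ 2 < R) (I₁ I₂ : Finset ℕ) (h₁ : ∀ n ∈ I₁, 4 * n < R)
    (h₂ : ∀ n ∈ I₂, 4 * n < R) (f₁ f₂ : ℕ → ℂ) (U V B : ℝ) (hU : 0 ≤ U) (hV : 0 ≤ V)
    (hmin : ∀ k ∈ range R, (∀ q a : ℕ, 0 < q → q ≤ P → a ≤ q → a.Coprime q →
      (H : ℝ) / R < |(k : ℝ) / R - (a : ℝ) / q|) →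
      ‖∑ n ∈ I₁, f₁ n * e (n * ((k : ℝ) / R))‖ ≤ U)
    (hF2 : ∀ k ∈ range R, ‖∑ n ∈ I₂, f₂ n * e (n * ((k : ℝ) / R))‖ ≤ V)
    (hf1 : ∑ n ∈ I₁, ‖f₁ n‖ ^ 2 ≤ B) (hf2 : ∑ n ∈ I₂, ‖f₂ n‖ ^ 2 ≤ B)
    (s : ℕ) (hs : 1 ≤ s) (Z : Finset ℕ) (M : ℕ) (hZ : ∀ m ∈ Z, m ≤ M) (hsM : s * M < R)
    (w : ℕ → ℝ) (hw : ∀ m ∈ Z, 0 ≤ w m) (τ : ℝ) (hτ : 0 ≤ τ)
    (hbig : ∀ m ∈ Z, (cv I₁ I₂ f₁ f₂ m - Maj P R H I₁ I₂ f₁ f₂ m).re ≤ -τ) :
    (τ * ∑ m ∈ Z, w m) ^ (2 * s) ≤ B ^ (2 * s - 1) * (U * V) * energy s Z w := by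
  have hRr : (0 : ℝ) < R := by exact_mod_cast hR
  set D : ℕ → ℂ := fun m => cv I₁ I₂ f₁ f₂ m - Maj P R H I₁ I₂ f₁ f₂ m with hD
  set g : ℕ → ℝ := fun k => ‖∑ m ∈ range R, D m * e (m * ((k : ℝ) / R))‖ with hg
  set W : ℕ → ℝ := fun k => ‖∑ m ∈ Z, (w m : ℂ) * e (m * ((k : ℝ) / R))‖ with hW
  set F1 : ℕ → ℝ := fun k => ‖∑ n ∈ I₁, f₁ n * e (n * ((k : ℝ) / R))‖ with hF1
  set F2 : ℕ → ℝ := fun k => ‖∑ n ∈ I₂, f₂ n * e (n * ((k : ℝ) / R))‖ with hF2d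
  have hZR : ∀ m ∈ Z, m < R := fun m hm => by
    have h1 := hZ m hm
    have h2 : M ≤ s * M := Nat.le_mul_of_pos_left _ hs
    omega
  have hw0 : 0 ≤ ∑ m ∈ Z, w m := sum_nonneg hw
  have hE0 : 0 ≤ energy s Z w := energy_nonneg s Z w hw
  have hft := fun k hk => diff_ft (f₂ := f₂) hP hR hdiv hH h₁ h₂ hU hmin k hk
  -- the pointwise bounds
  have hg1 : ∀ k ∈ range R, g k ≤ U * V := fun k hk =>
    (hft k hk).1.trans (mul_le_mul_of_nonneg_left (hF2 k hk) hU)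
  have hg2 : ∀ k ∈ range R, g k ≤ F1 k * F2 k := fun k hk => (hft k hk).2
  have hgsum : ∑ k ∈ range R, g k ≤ R * B := by
    have h1 := parseval R hR I₁ (fun a ha => by have := h₁ a ha; omega) f₁
    have h2 := parseval R hR I₂ (fun a ha => by have := h₂ a ha; omega) f₂
    calc ∑ k ∈ range R, g k ≤ ∑ k ∈ range R, (F1 k ^ 2 + F2 k ^ 2) / 2 := by
          refine sum_le_sum fun k hk => (hg2 k hk).trans ?_
          nlinarith [sq_nonneg (F1 k - F2 k)]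
      _ = (R * ∑ n ∈ I₁, ‖f₁ n‖ ^ 2 + R * ∑ n ∈ I₂, ‖f₂ n‖ ^ 2) / 2 := by
          rw [← sum_div, sum_add_distrib, h1, h2]
      _ ≤ (R * B + R * B) / 2 := by gcongr
      _ = R * B := by ring
  have hB0 : 0 ≤ B := le_trans (sum_nonneg fun n _ => by positivity) hf1
  -- the linear bound
  have hlin : R * (τ * ∑ m ∈ Z, w m) ≤ ∑ k ∈ range R, g k * W k := by
    have h1 := plancherel hR D Z hZR w
    have h2 : ‖(R : ℂ) * ∑ m ∈ Z, (w m : ℂ) * D m‖ ≤ ∑ k ∈ range R, g k * W k := by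
      rw [← h1]
      refine (norm_sum_le _ _).trans (sum_le_sum fun k _ => ?_)
      rw [norm_mul, RCLike.norm_conj]
    have h3 : R * (τ * ∑ m ∈ Z, w m) ≤ -((R : ℂ) * ∑ m ∈ Z, (w m : ℂ) * D m).re := by
      have h4 : ((R : ℂ) * ∑ m ∈ Z, (w m : ℂ) * D m).re = R * ∑ m ∈ Z, w m * (D m).re := by
        have h5 : (R : ℂ) = ((R : ℝ) : ℂ) := by push_cast; rfl
        rw [h5, Complex.re_ofReal_mul, Complex.re_sum]
        congr 1
        refine sum_congr rfl fun m _ => ?_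
        rw [Complex.re_ofReal_mul]
      rw [h4, ← mul_neg, ← sum_neg_distrib]
      apply mul_le_mul_of_nonneg_left _ hRr.le
      rw [mul_sum]
      refine sum_le_sum fun m hm => ?_
      have h5 := hbig m hm
      have h6 := hw m hm
      nlinarith
    refine h3.trans (le_trans ?_ h2)
    refine le_trans (neg_le_abs _) (Complex.abs_re_le_norm _)
  -- Jensen
  obtain ⟨n, hn⟩ : ∃ n, 2 * s = n + 1 := ⟨2 * s - 1, by omega⟩
  have hn' : 2 * s - 1 = n := by omega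
  have hj := jensen (range R) g W (fun k _ => norm_nonneg _) (fun k _ => norm_nonneg _) n
  have hmom := energy_moment s Z w M R hZ hsM
  have hgW : ∑ k ∈ range R, g k * W k ^ (n + 1) ≤ U * V * (R * energy s Z w) := by
    rw [← hmom, hn, mul_sum]
    refine sum_le_sum fun k hk => ?_
    have := hg1 k hk
    have h2 : 0 ≤ W k ^ (n + 1) := pow_nonneg (norm_nonneg _) _
    exact mul_le_mul_of_nonneg_right this h2
  have hfin : (R * (τ * ∑ m ∈ Z, w m)) ^ (n + 1)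
      ≤ (R * B) ^ n * (U * V * (R * energy s Z w)) := by
    have h1 : 0 ≤ R * (τ * ∑ m ∈ Z, w m) := by positivity
    have h2 : 0 ≤ ∑ k ∈ range R, g k := sum_nonneg fun k _ => norm_nonneg _
    have h3 : 0 ≤ ∑ k ∈ range R, g k * W k ^ (n + 1) :=
      sum_nonneg fun k _ => mul_nonneg (norm_nonneg _) (pow_nonneg (norm_nonneg _) _)
    calc (R * (τ * ∑ m ∈ Z, w m)) ^ (n + 1) ≤ (∑ k ∈ range R, g k * W k) ^ (n + 1) := by gcongr
      _ ≤ (∑ k ∈ range R, g k) ^ n * ∑ k ∈ range R, g k * W k ^ (n + 1) := hj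
      _ ≤ (R * B) ^ n * (U * V * (R * energy s Z w)) := by gcongr
  rw [hn', hn]
  rw [mul_pow] at hfin
  have h1 : (R : ℝ) ^ (n + 1) * (τ * ∑ m ∈ Z, w m) ^ (n + 1)
      ≤ R ^ (n + 1) * (B ^ n * (U * V) * energy s Z w) := by
    refine hfin.trans (le_of_eq ?_)
    rw [mul_pow]
    ring
  exact le_of_mul_le_mul_left h1 (by positivity)

end Energy

end Pool.Agent.PS
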