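import Pool.Agent.Work.PS.CIRC

/-!
# Additive energies of finitely supported weights

`energy s E w` is the sum, over all pairs of `s`-tuples of elements of `E` with the same sum, of the
product of the `2 s` weights.
-/

set_option autoImplicit false

namespace Pool.Agent.PS

open Finset
open Pool.Agent.Circle (e e_add parseval norm_e)

/-- The additive energy of order `s` of the weight `w` on the finite set `E`. -/
noncomputable def energy (s : ℕ) (E : Finset ℕ) (w : ℕ → ℝ) : ℝ :=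
  ∑ a ∈ Fintype.piFinset (fun _ : Fin s => E), ∑ b ∈ Fintype.piFinset (fun _ : Fin s => E),
    if ∑ i, a i = ∑ i, b i then (∏ i, w (a i)) * ∏ i, w (b i) else 0

namespace Energy

/-- The `s`-fold convolution. -/
noncomputable def cs (s : ℕ) (E : Finset ℕ) (w : ℕ → ℝ) (x : ℕ) : ℝ :=
  ∑ a ∈ (Fintype.piFinset (fun _ : Fin s => E)).filter (fun a => ∑ i, a i = x), ∏ i, w (a i)

theorem energy_eq (s : ℕ) (E : Finset ℕ) (w : ℕ → ℝ) :
    energy s E w = ∑ a ∈ Fintype.piFinset (fun _ : Fin s => E),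
      (∏ i, w (a i)) * cs s E w (∑ i, a i) := by
  unfold energy cs
  refine sum_congr rfl fun a _ => ?_
  rw [mul_sum, sum_filter]
  refine sum_congr rfl fun b _ => ?_
  by_cases h : ∑ i, a i = ∑ i, b i
  · rw [if_pos h, if_pos h.symm]
  · rw [if_neg h, if_neg (fun h' => h h'.symm)]

theorem sum_lt (s : ℕ) (E : Finset ℕ) (M R : ℕ) (hE : ∀ m ∈ E, m ≤ M) (hR : s * M < R)
    (a : Fin s → ℕ) (ha : a ∈ Fintype.piFinset (fun _ : Fin s => E)) : ∑ i, a i < R := by
  rw [Fintype.mem_piFinset] at ha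
  calc ∑ i, a i ≤ ∑ _i : Fin s, M := sum_le_sum fun i _ => hE _ (ha i)
    _ = s * M := by simp
    _ < R := hR

theorem energy_eq_sq (s : ℕ) (E : Finset ℕ) (w : ℕ → ℝ) (M R : ℕ) (hE : ∀ m ∈ E, m ≤ M)
    (hR : s * M < R) : energy s E w = ∑ x ∈ range R, (cs s E w x) ^ 2 := by
  rw [energy_eq]
  rw [← sum_fiberwise_of_maps_to (s := Fintype.piFinset (fun _ : Fin s => E)) (t := range R)
    (g := fun a => ∑ i, a i) (fun a ha => mem_range.mpr (sum_lt s E M R hE hR a ha))]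
  refine sum_congr rfl fun x _ => ?_
  have h1 : ∀ a ∈ (Fintype.piFinset (fun _ : Fin s => E)).filter (fun a => ∑ i, a i = x),
      (∏ i, w (a i)) * cs s E w (∑ i, a i) = (∏ i, w (a i)) * cs s E w x := by
    intro a ha
    rw [(mem_filter.mp ha).2]
  rw [sum_congr rfl h1, ← sum_mul, sq]
  rfl

theorem cs_nonneg (s : ℕ) (E : Finset ℕ) (w : ℕ → ℝ) (hw : ∀ m ∈ E, 0 ≤ w m) (x : ℕ) :
    0 ≤ cs s E w x := by
  unfold cs
  refine sum_nonneg fun a ha => prod_nonneg fun i _ => ?_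
  have h1 := (mem_filter.mp ha).1
  rw [Fintype.mem_piFinset] at h1
  exact hw _ (h1 i)

theorem energy_nonneg (s : ℕ) (E : Finset ℕ) (w : ℕ → ℝ) (hw : ∀ m ∈ E, 0 ≤ w m) :
    0 ≤ energy s E w := by
  rw [energy_eq]
  refine sum_nonneg fun a ha => mul_nonneg (prod_nonneg fun i _ => ?_) (cs_nonneg s E w hw _)
  rw [Fintype.mem_piFinset] at ha
  exact hw _ (ha i)

theorem cs_mono (s : ℕ) (E E' : Finset ℕ) (w w' : ℕ → ℝ) (hEE : E' ⊆ E)
    (hw' : ∀ m ∈ E', 0 ≤ w' m ∧ w' m ≤ w m) (hw : ∀ m ∈ E, 0 ≤ w m) (x : ℕ) :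
    cs s E' w' x ≤ cs s E w x := by
  unfold cs
  calc ∑ a ∈ (Fintype.piFinset (fun _ : Fin s => E')).filter (fun a => ∑ i, a i = x), ∏ i, w' (a i)
      ≤ ∑ a ∈ (Fintype.piFinset (fun _ : Fin s => E')).filter (fun a => ∑ i, a i = x),
        ∏ i, w (a i) := by
        refine sum_le_sum fun a ha => prod_le_prod (fun i _ => ?_) fun i _ => ?_
        · have h1 := (mem_filter.mp ha).1
          rw [Fintype.mem_piFinset] at h1
          exact (hw' _ (h1 i)).1
        · have h1 := (mem_filter.mp ha).1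
          rw [Fintype.mem_piFinset] at h1
          exact (hw' _ (h1 i)).2
    _ ≤ _ := by
        refine sum_le_sum_of_subset_of_nonneg ?_ fun a ha _ => prod_nonneg fun i _ => ?_
        · exact filter_subset_filter _ (Fintype.piFinset_subset _ _ fun _ => hEE)
        · have h1 := (mem_filter.mp ha).1
          rw [Fintype.mem_piFinset] at h1
          exact hw _ (h1 i)

theorem energy_mono (s : ℕ) (E E' : Finset ℕ) (w w' : ℕ → ℝ) (hEE : E' ⊆ E)
    (hw' : ∀ m ∈ E', 0 ≤ w' m ∧ w' m ≤ w m) (hw : ∀ m ∈ E, 0 ≤ w m) :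
    energy s E' w' ≤ energy s E w := by
  obtain ⟨M, hM⟩ : ∃ M, ∀ m ∈ E, m ≤ M := ⟨E.sup id, fun m hm => le_sup (f := id) hm⟩
  rw [energy_eq_sq s E w M (s * M + 1) hM (Nat.lt_succ_self _),
    energy_eq_sq s E' w' M (s * M + 1) (fun m hm => hM m (hEE hm)) (Nat.lt_succ_self _)]
  refine sum_le_sum fun x _ => ?_
  have h1 := cs_mono s E E' w w' hEE hw' hw x
  have h2 := cs_nonneg s E' w' (fun m hm => (hw' m hm).1) x
  gcongr

theorem sum_pow_eq {s : ℕ} (E : Finset ℕ) (f : ℕ → ℂ) :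
    (∑ m ∈ E, f m) ^ s = ∑ a ∈ Fintype.piFinset (fun _ : Fin s => E), ∏ i, f (a i) := by
  have h := Finset.prod_univ_sum (fun _ : Fin s => E) (fun (_ : Fin s) (m : ℕ) => f m)
  rw [← h, prod_const, card_univ, Fintype.card_fin]

theorem sum_pow_eq' {s : ℕ} (E : Finset ℕ) (f : ℕ → ℝ) :
    (∑ m ∈ E, f m) ^ s = ∑ a ∈ Fintype.piFinset (fun _ : Fin s => E), ∏ i, f (a i) := by
  have h := Finset.prod_univ_sum (fun _ : Fin s => E) (fun (_ : Fin s) (m : ℕ) => f m)
  rw [← h, prod_const, card_univ, Fintype.card_fin]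

theorem prod_e {s : ℕ} (w : ℕ → ℝ) (a : Fin s → ℕ) (α : ℝ) :
    ∏ i, ((w (a i) : ℂ) * e (a i * α)) = ((∏ i, w (a i) : ℝ) : ℂ) * e ((∑ i, a i : ℕ) * α) := by
  rw [prod_mul_distrib]
  push_cast
  congr 1
  rw [sum_mul]
  induction s with
  | zero => simp [Pool.Agent.Circle.e_zero]
  | succ s ih =>
    rw [Fin.prod_univ_castSucc, Fin.sum_univ_castSucc, e_add]
    rw [ih (fun i => a i.castSucc)]

/-- Orthogonality: the energy is a moment of the exponential sum. -/
theorem energy_moment (s : ℕ) (E : Finset ℕ) (w : ℕ → ℝ) (M R : ℕ) (hE : ∀ m ∈ E, m ≤ M)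
    (hR : s * M < R) :
    ∑ k ∈ range R, ‖∑ m ∈ E, (w m : ℂ) * e (m * ((k : ℝ) / R))‖ ^ (2 * s) = R * energy s E w := by
  have hR0 : 0 < R := by omega
  rw [energy_eq_sq s E w M R hE hR]
  have h1 := parseval R hR0 (range R) (fun a ha => mem_range.mp ha) (fun x => (cs s E w x : ℂ))
  have h2 : ∀ x ∈ range R, ‖((cs s E w x : ℝ) : ℂ)‖ ^ 2 = (cs s E w x) ^ 2 := by
    intro x _
    rw [Complex.norm_real, Real.norm_eq_abs, sq_abs]
  rw [sum_congr rfl h2] at h1
  rw [← h1]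
  refine sum_congr rfl fun k _ => ?_
  rw [mul_comm 2 s, pow_mul, ← norm_pow]
  congr 2
  rw [sum_pow_eq]
  simp_rw [prod_e]
  rw [← sum_fiberwise_of_maps_to (s := Fintype.piFinset (fun _ : Fin s => E)) (t := range R)
    (g := fun a => ∑ i, a i) (fun a ha => mem_range.mpr (sum_lt s E M R hE hR a ha))]
  refine sum_congr rfl fun x _ => ?_
  unfold cs
  push_cast
  rw [sum_mul]
  refine sum_congr rfl fun a ha => ?_
  have h3 := (mem_filter.mp ha).2
  rw [← h3]
  push_cast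
  rfl

/-- Diagonal lower bound for the energy. -/
theorem sum_sq_pow_le (s : ℕ) (E : Finset ℕ) (w : ℕ → ℝ) (hw : ∀ m ∈ E, 0 ≤ w m) :
    (∑ m ∈ E, (w m) ^ 2) ^ s ≤ energy s E w := by
  rw [sum_pow_eq']
  unfold energy
  refine sum_le_sum fun a ha => ?_
  have h1 : ∏ i, (w (a i)) ^ 2 = (if ∑ i, a i = ∑ i, a i then (∏ i, w (a i)) * ∏ i, w (a i) else 0) := by
    rw [if_pos rfl, prod_pow, sq]
  rw [h1]
  refine single_le_sum (f := fun b : Fin s → ℕ =>
    if ∑ i, a i = ∑ i, b i then (∏ i, w (a i)) * ∏ i, w (b i) else 0) (fun b hb => ?_) ha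
  rw [Fintype.mem_piFinset] at ha hb
  show 0 ≤ (if ∑ i, a i = ∑ i, b i then (∏ i, w (a i)) * ∏ i, w (b i) else 0)
  split_ifs
  · exact mul_nonneg (prod_nonneg fun i _ => hw _ (ha i)) (prod_nonneg fun i _ => hw _ (hb i))
  · exact le_rfl

/-- The trivial bound. -/
theorem trivial_bound (s : ℕ) (E : Finset ℕ) (w : ℕ → ℝ) (hw : ∀ m ∈ E, 0 ≤ w m) :
    (∑ m ∈ E, w m) ^ (2 * s) ≤ (E.card : ℝ) ^ s * energy s E w := by
  have h1 : (∑ m ∈ E, w m) ^ 2 ≤ (E.card : ℝ) * ∑ m ∈ E, (w m) ^ 2 := by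
    have := sq_sum_le_card_mul_sum_sq (s := E) (f := w)
    exact this
  calc (∑ m ∈ E, w m) ^ (2 * s) = ((∑ m ∈ E, w m) ^ 2) ^ s := by rw [pow_mul]
    _ ≤ ((E.card : ℝ) * ∑ m ∈ E, (w m) ^ 2) ^ s := by gcongr
    _ = (E.card : ℝ) ^ s * (∑ m ∈ E, (w m) ^ 2) ^ s := by rw [mul_pow]
    _ ≤ (E.card : ℝ) ^ s * energy s E w := by
        have := sum_sq_pow_le s E w hw
        gcongr

/-- The energy of a push-forward is at most the number of solutions. -/
theorem energy_push {ι : Type*} [DecidableEq ι] (s : ℕ) (E : Finset ℕ) (S : Finset ι)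
    (φ : ι → ℕ) :
    energy s E (fun m => ((S.filter fun k => φ k = m).card : ℝ))
      ≤ ((((Fintype.piFinset fun _ : Fin s => S) ×ˢ (Fintype.piFinset fun _ : Fin s => S)).filter
        fun z => ∑ i, φ (z.1 i) = ∑ i, φ (z.2 i)).card : ℝ) := by
  -- the number of tuples above a given tuple
  have hcard : ∀ a : Fin s → ℕ, ∏ i, ((S.filter fun k => φ k = a i).card : ℝ)
      = (((Fintype.piFinset fun _ : Fin s => S).filter fun k => (fun i => φ (k i)) = a).card : ℝ) := by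
    intro a
    have h1 : ((Fintype.piFinset fun _ : Fin s => S).filter fun k => (fun i => φ (k i)) = a)
        = Fintype.piFinset fun i : Fin s => S.filter fun k => φ k = a i := by
      ext k
      simp only [mem_filter, Fintype.mem_piFinset, funext_iff]
      constructor
      · rintro ⟨h2, h3⟩ i
        exact ⟨h2 i, h3 i⟩
      · intro h2
        exact ⟨fun i => (h2 i).1, fun i => (h2 i).2⟩
    rw [h1, Fintype.card_piFinset]
    push_cast
    rfl
  set T := Fintype.piFinset fun _ : Fin s => S with hT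
  unfold energy
  have h1 : ∀ a ∈ Fintype.piFinset (fun _ : Fin s => E),
      ∀ b ∈ Fintype.piFinset (fun _ : Fin s => E),
      (if ∑ i, a i = ∑ i, b i then (∏ i, ((S.filter fun k => φ k = a i).card : ℝ)) *
        ∏ i, ((S.filter fun k => φ k = b i).card : ℝ) else 0)
      = (((T ×ˢ T).filter fun z => ∑ i, φ (z.1 i) = ∑ i, φ (z.2 i) ∧
          (fun i => φ (z.1 i)) = a ∧ (fun i => φ (z.2 i)) = b).card : ℝ) := by
    intro a _ b _
    split_ifs with h
    · rw [hcard, hcard]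
      norm_cast
      rw [← card_product]
      congr 1
      ext z
      simp only [mem_product, mem_filter]
      constructor
      · rintro ⟨⟨h2, h3⟩, h4, h5⟩
        refine ⟨⟨h2, h4⟩, ?_, h3, h5⟩
        have h6 : ∀ i, φ (z.1 i) = a i := fun i => congrFun h3 i
        have h7 : ∀ i, φ (z.2 i) = b i := fun i => congrFun h5 i
        simp_rw [h6, h7]
        exact h
      · rintro ⟨⟨h2, h4⟩, _, h3, h5⟩
        exact ⟨⟨h2, h3⟩, h4, h5⟩
    · symm
      norm_cast
      rw [card_eq_zero, filter_eq_empty_iff]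
      rintro z _ ⟨h2, h3, h5⟩
      apply h
      have h6 : ∀ i, φ (z.1 i) = a i := fun i => congrFun h3 i
      have h7 : ∀ i, φ (z.2 i) = b i := fun i => congrFun h5 i
      simp_rw [h6, h7] at h2
      exact h2
  rw [sum_congr rfl fun a ha => sum_congr rfl fun b hb => h1 a ha b hb]
  norm_cast
  rw [← sum_product']
  have h2 : ∀ p : (Fin s → ℕ) × (Fin s → ℕ), ((T ×ˢ T).filter fun z => ∑ i, φ (z.1 i) = ∑ i, φ (z.2 i) ∧
          (fun i => φ (z.1 i)) = p.1 ∧ (fun i => φ (z.2 i)) = p.2)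
      = (((T ×ˢ T).filter fun z => ∑ i, φ (z.1 i) = ∑ i, φ (z.2 i)).filter fun z =>
          ((fun i => φ (z.1 i)), (fun i => φ (z.2 i))) = p) := by
    intro p
    rw [filter_filter]
    refine filter_congr fun z _ => ?_
    rw [Prod.ext_iff]
  simp_rw [h2]
  rw [← card_biUnion]
  · exact card_le_card (biUnion_subset.mpr fun p _ => filter_subset _ _)
  · intro p _ p' _ hne
    rw [Function.onFun, disjoint_filter]
    intro z _ h3 h4
    exact hne (h3.symm.trans h4)

end Energy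

end Pool.Agent.PS
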