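import Pool.Agent.Work.PS.E.Energy
import Pool.Agent.Work.MP_484fb8_nt.Poly.Meas

/-!
# The number of solutions of `f(k₁) + ⋯ + f(k_s) = f(l₁) + ⋯ + f(l_s)`
-/

set_option autoImplicit false

namespace Pool.Agent.PS.Energy

open Finset Polynomial
open Pool.Agent.Circle (e e_add parseval norm_e)

/-- The number of solutions. -/
noncomputable def sols {ι : Type*} (s : ℕ) (S : Finset ι) (φ : ι → ℚ) : ℕ := by
  classical
  exact (((Fintype.piFinset fun _ : Fin s => S) ×ˢ (Fintype.piFinset fun _ : Fin s => S)).filter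
        fun z => ∑ i, φ (z.1 i) = ∑ i, φ (z.2 i)).card

/-- The number of solutions as a moment. -/
theorem count_moment (s : ℕ) (S : Finset ℕ) (φ : ℕ → ℕ) (M R : ℕ) (hE : ∀ k ∈ S, φ k ≤ M)
    (hR : s * M < R) :
    ∑ k ∈ range R, ‖∑ x ∈ S, e (φ x * ((k : ℝ) / R))‖ ^ (2 * s)
      = R * ((((Fintype.piFinset fun _ : Fin s => S) ×ˢ (Fintype.piFinset fun _ : Fin s => S)).filter
        fun z => ∑ i, φ (z.1 i) = ∑ i, φ (z.2 i)).card : ℝ) := by
  have hR0 : 0 < R := by omega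
  set T := Fintype.piFinset fun _ : Fin s => S with hT
  set c : ℕ → ℕ := fun v => (T.filter fun x => ∑ i, φ (x i) = v).card with hc
  have hlt : ∀ x ∈ T, ∑ i, φ (x i) < R := by
    intro x hx
    rw [hT, Fintype.mem_piFinset] at hx
    calc ∑ i, φ (x i) ≤ ∑ _i : Fin s, M := sum_le_sum fun i _ => hE _ (hx i)
      _ = s * M := by simp
      _ < R := hR
  have h1 := parseval R hR0 (range R) (fun a ha => mem_range.mp ha) (fun x => (c x : ℂ))
  have h2 : ∀ x ∈ range R, ‖((c x : ℕ) : ℂ)‖ ^ 2 = (c x : ℝ) ^ 2 := by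
    intro x _
    rw [Complex.norm_natCast]
  rw [sum_congr rfl h2] at h1
  have h3 : (((T ×ˢ T).filter fun z => ∑ i, φ (z.1 i) = ∑ i, φ (z.2 i)).card : ℝ)
      = ∑ v ∈ range R, (c v : ℝ) ^ 2 := by
    have h4 := card_eq_sum_card_fiberwise (s := (T ×ˢ T).filter fun z =>
      ∑ i, φ (z.1 i) = ∑ i, φ (z.2 i)) (t := range R) (f := fun z => ∑ i, φ (z.1 i))
      (fun z hz => by
        have := (mem_product.mp (mem_filter.mp hz).1).1
        simpa using hlt _ this)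
    rw [h4]
    push_cast
    refine sum_congr rfl fun v _ => ?_
    rw [sq, hc]
    norm_cast
    rw [← card_product]
    congr 1
    ext z
    simp only [mem_filter, mem_product]
    constructor
    · rintro ⟨⟨⟨h5, h6⟩, h7⟩, h8⟩
      exact ⟨⟨h5, h8⟩, h6, h7 ▸ h8⟩
    · rintro ⟨⟨h5, h8⟩, h6, h7⟩
      exact ⟨⟨⟨h5, h6⟩, h8.trans h7.symm⟩, h8⟩
  rw [h3, ← h1]
  refine sum_congr rfl fun k _ => ?_
  rw [mul_comm 2 s, pow_mul, ← norm_pow]
  congr 2
  have h5 := Finset.prod_univ_sum (fun _ : Fin s => S)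
    (fun (_ : Fin s) (x : ℕ) => e (φ x * ((k : ℝ) / R)))
  rw [prod_const, card_univ, Fintype.card_fin] at h5
  rw [h5, ← hT]
  have h6 : ∀ x ∈ T, ∏ i, e (φ (x i) * ((k : ℝ) / R)) = e ((∑ i, φ (x i) : ℕ) * ((k : ℝ) / R)) := by
    intro x _
    have := prod_e (fun _ => 1) (fun i => φ (x i)) ((k : ℝ) / R)
    simpa using this
  rw [sum_congr rfl h6, ← sum_fiberwise_of_maps_to (s := T) (t := range R)
    (g := fun x => ∑ i, φ (x i)) (fun x hx => mem_range.mpr (hlt x hx))]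
  refine sum_congr rfl fun v _ => ?_
  have h7 : ∀ x ∈ T.filter (fun x => ∑ i, φ (x i) = v),
      e ((∑ i, φ (x i) : ℕ) * ((k : ℝ) / R)) = e (v * ((k : ℝ) / R)) := by
    intro x hx
    rw [(mem_filter.mp hx).2]
  rw [sum_congr rfl h7, sum_const, nsmul_eq_mul]

/-- A moment bound from large value estimates. -/
theorem moment_of_meas (N : ℕ) (f : ℕ → ℝ) (hf : ∀ i ∈ range N, 0 ≤ f i) (K Q : ℝ) (hK : 0 < K)
    (hQ : 0 ≤ Q) (hfK : ∀ i ∈ range N, f i ≤ K) (c s : ℕ) (hcs : c + 1 ≤ s)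
    (hm : ∀ δ : ℝ, 0 < δ → δ ≤ 1 →
      ((((range N).filter fun i => δ * K < f i).card : ℕ) : ℝ) ≤ Q * ((1 / δ) ^ c) ^ 2) (V : ℕ) :
    ∑ i ∈ range N, f i ^ (2 * s) ≤ K ^ (2 * s) * (2 * 4 ^ c * Q + N * (1 / 4) ^ (s * V)) := by
  -- pointwise
  have hpt : ∀ i ∈ range N, f i ^ (2 * s) ≤ (∑ v ∈ range V, if (1 / 2) ^ (v + 1) * K < f i then
      ((1 / 2) ^ v * K) ^ (2 * s) else 0) + ((1 / 2) ^ V * K) ^ (2 * s) := by
    intro i hi
    have h0 := hf i hi
    have hsum0 : 0 ≤ ∑ v ∈ range V, (if (1 / 2) ^ (v + 1) * K < f i then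
      ((1 / 2) ^ v * K) ^ (2 * s) else 0 : ℝ) := sum_nonneg fun v _ => by
        split_ifs
        · positivity
        · exact le_rfl
    by_cases h : f i ≤ (1 / 2) ^ V * K
    · have : f i ^ (2 * s) ≤ ((1 / 2) ^ V * K) ^ (2 * s) := by gcongr
      linarith
    · push Not at h
      -- least `v` with `2^-(v+1) K < f i`
      have hex : ∃ v, (1 / 2 : ℝ) ^ (v + 1) * K < f i := by
        refine ⟨V, lt_of_le_of_lt ?_ h⟩
        rw [pow_succ]
        have : 0 ≤ (1 / 2 : ℝ) ^ V * K := by positivity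
        nlinarith
      have hv := Nat.find_spec hex
      set v := Nat.find hex with hvd
      have hvV : v < V := by
        by_contra hcon
        push Not at hcon
        rcases Nat.eq_zero_or_pos V with hV0 | hV0
        · subst hV0
          have := hfK i hi
          rw [pow_zero, one_mul] at h
          linarith
        · have h1 : V - 1 < v := by omega
          have h2 := Nat.find_min hex h1
          rw [Nat.sub_add_cancel hV0] at h2
          exact h2 h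
      have hle : f i ≤ (1 / 2) ^ v * K := by
        rcases Nat.eq_zero_or_pos v with h0' | h0'
        · rw [h0', pow_zero, one_mul]
          exact hfK i hi
        · have h1 : v - 1 < v := by omega
          have h2 := Nat.find_min hex h1
          rw [Nat.sub_add_cancel h0'] at h2
          push Not at h2
          exact h2
      have h1 : f i ^ (2 * s) ≤ ((1 / 2) ^ v * K) ^ (2 * s) := by gcongr
      have h2 : ((1 / 2) ^ v * K) ^ (2 * s) ≤ ∑ v ∈ range V, (if (1 / 2) ^ (v + 1) * K < f i then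
          ((1 / 2) ^ v * K) ^ (2 * s) else 0 : ℝ) := by
        have h3 := single_le_sum (f := fun v => (if (1 / 2) ^ (v + 1) * K < f i then
          ((1 / 2) ^ v * K) ^ (2 * s) else 0 : ℝ)) (s := range V) (fun v _ => by
            show 0 ≤ (if (1 / 2) ^ (v + 1) * K < f i then ((1 / 2) ^ v * K) ^ (2 * s) else 0 : ℝ)
            split_ifs
            · positivity
            · exact le_rfl) (mem_range.mpr hvV)
        refine le_trans (le_of_eq ?_) h3
        exact (if_pos hv).symm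
      have h3 : 0 ≤ ((1 / 2 : ℝ) ^ V * K) ^ (2 * s) := by positivity
      linarith
  refine (sum_le_sum hpt).trans ?_
  rw [sum_add_distrib, sum_comm, sum_const, card_range, nsmul_eq_mul]
  have h1 : ∀ v ∈ range V, ∑ i ∈ range N, (if (1 / 2) ^ (v + 1) * K < f i then
      ((1 / 2) ^ v * K) ^ (2 * s) else 0 : ℝ) ≤ K ^ (2 * s) * (4 ^ c * Q) * (1 / 4) ^ v := by
    intro v _
    rw [← sum_filter, sum_const, nsmul_eq_mul]
    have h2 := hm ((1 / 2) ^ (v + 1)) (by positivity) (pow_le_one₀ (by norm_num) (by norm_num))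
    have h3 : (1 / (1 / 2 : ℝ) ^ (v + 1)) = 2 ^ (v + 1) := by
      rw [one_div, ← inv_pow]
      norm_num
    rw [h3] at h2
    have h4 : (((2 : ℝ) ^ (v + 1)) ^ c) ^ 2 = 4 ^ c * 4 ^ (v * c) := by
      have h5 : (4 : ℝ) = 2 ^ 2 := by norm_num
      rw [h5, ← pow_mul, ← pow_mul, ← pow_mul, ← pow_mul, ← pow_add]
      congr 1
      ring
    have h5 : ((1 / 2 : ℝ) ^ v * K) ^ (2 * s) = K ^ (2 * s) * (1 / 4) ^ (v * s) := by
      rw [mul_pow, ← pow_mul, mul_comm]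
      congr 1
      have : (1 / 2 : ℝ) ^ (v * (2 * s)) = ((1 / 2) ^ 2) ^ (v * s) := by
        rw [← pow_mul]
        congr 1
        ring
      rw [this]
      norm_num
    have h6 : (4 : ℝ) ^ (v * c) * (1 / 4) ^ (v * s) ≤ (1 / 4) ^ v := by
      have h7 : (1 / 4 : ℝ) ^ (v * s) ≤ (1 / 4) ^ (v * (c + 1)) :=
        pow_le_pow_of_le_one (by norm_num) (by norm_num) (Nat.mul_le_mul_left _ hcs)
      calc (4 : ℝ) ^ (v * c) * (1 / 4) ^ (v * s) ≤ (4 : ℝ) ^ (v * c) * (1 / 4) ^ (v * (c + 1)) := by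
            gcongr
        _ = (1 / 4) ^ v := by
            rw [mul_add, mul_one, pow_add, ← mul_assoc, ← mul_pow]
            norm_num
    calc (((range N).filter fun i => (1 / 2) ^ (v + 1) * K < f i).card : ℝ)
          * ((1 / 2) ^ v * K) ^ (2 * s)
        ≤ (Q * (((2 : ℝ) ^ (v + 1)) ^ c) ^ 2) * ((1 / 2) ^ v * K) ^ (2 * s) := by gcongr
      _ = K ^ (2 * s) * (4 ^ c * Q) * ((4 : ℝ) ^ (v * c) * (1 / 4) ^ (v * s)) := by
          rw [h4, h5]
          ring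
      _ ≤ _ := by gcongr
  have h2 : ∑ v ∈ range V, (1 / 4 : ℝ) ^ v ≤ 2 := by
    have h3 : ∑ v ∈ range V, (1 / 4 : ℝ) ^ v ≤ ∑ v ∈ range V, (1 / 2 : ℝ) ^ v := by
      refine sum_le_sum fun v _ => ?_
      gcongr
      norm_num
    refine h3.trans ?_
    rw [geom_sum_eq (by norm_num)]
    have : (0 : ℝ) ≤ (1 / 2) ^ V := by positivity
    rw [div_le_iff_of_neg (by norm_num)]
    linarith
  have h3 : ((1 / 2 : ℝ) ^ V * K) ^ (2 * s) = K ^ (2 * s) * (1 / 4) ^ (s * V) := by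
    rw [mul_pow, ← pow_mul, mul_comm]
    congr 1
    have : (1 / 2 : ℝ) ^ (V * (2 * s)) = ((1 / 2) ^ 2) ^ (s * V) := by
      rw [← pow_mul]
      congr 1
      ring
    rw [this]
    norm_num
  rw [h3]
  calc _ ≤ ∑ v ∈ range V, K ^ (2 * s) * (4 ^ c * Q) * (1 / 4) ^ v
        + N * (K ^ (2 * s) * (1 / 4) ^ (s * V)) := by
        gcongr with v hv
        exact h1 v hv
    _ = K ^ (2 * s) * (4 ^ c * Q) * (∑ v ∈ range V, (1 / 4 : ℝ) ^ v)
        + N * (K ^ (2 * s) * (1 / 4) ^ (s * V)) := by rw [mul_sum]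
    _ ≤ K ^ (2 * s) * (4 ^ c * Q) * 2 + N * (K ^ (2 * s) * (1 / 4) ^ (s * V)) := by gcongr
    _ = _ := by ring

/-- The number of solutions for polynomials with natural values. -/
theorem poly_nat (d : ℕ) (hd : 1 ≤ d) : ∃ s : ℕ, 1 ≤ s ∧ d ≤ 2 * s ∧ ∀ A : ℕ, 0 < A →
    ∃ C : ℝ, 0 < C ∧ ∀ (F : ℝ[X]) (g : ℕ → ℕ) (a K : ℕ), F.natDegree ≤ d → F.coeff d = A →
    (∀ k ∈ Ioc a (a + K), (g k : ℝ) = F.eval (k : ℝ)) → 0 < K →
    ((((Fintype.piFinset fun _ : Fin s => Ioc a (a + K)) ×ˢ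
      (Fintype.piFinset fun _ : Fin s => Ioc a (a + K))).filter
        fun z => ∑ i, g (z.1 i) = ∑ i, g (z.2 i)).card : ℝ) ≤ C * (K : ℝ) ^ (2 * s - d) := by
  obtain ⟨C1, hC1, c, hmeas⟩ := Pool.Agent.Work.MP_484fb8_nt.Poly.meas d hd
  refine ⟨c + d + 1, by omega, by omega, fun A hA => ?_⟩
  set s := c + d + 1 with hs
  refine ⟨2 * 4 ^ c * (C1 ^ 2 * 9) + 1, by positivity, ?_⟩
  intro F g a K hF hFA hg hK
  have hKr : (1 : ℝ) ≤ K := by exact_mod_cast hK
  have hK0 : (0 : ℝ) < K := by linarith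
  have hAr : (1 : ℝ) ≤ A := by exact_mod_cast hA
  -- bound for the values, and the modulus
  obtain ⟨M, hM⟩ : ∃ M, ∀ k ∈ Ioc a (a + K), g k ≤ M :=
    ⟨(Ioc a (a + K)).sup g, fun k hk => le_sup (f := g) hk⟩
  set R := s * M + A * K ^ d + 1 with hR
  have hsM : s * M < R := by omega
  have hR0 : 0 < R := by omega
  have hRr : (0 : ℝ) < R := by exact_mod_cast hR0
  have hAR : (A : ℝ) ≤ R / (K : ℝ) ^ d := by
    rw [le_div_iff₀ (by positivity)]
    have : A * K ^ d ≤ R := by omega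
    exact_mod_cast this
  have hmom := count_moment s (Ioc a (a + K)) g M R hM hsM
  set Nn : ℝ := ((((Fintype.piFinset fun _ : Fin s => Ioc a (a + K)) ×ˢ
      (Fintype.piFinset fun _ : Fin s => Ioc a (a + K))).filter
        fun z => ∑ i, g (z.1 i) = ∑ i, g (z.2 i)).card : ℝ) with hNn
  set f : ℕ → ℝ := fun k => ‖∑ x ∈ Ioc a (a + K), e (g x * ((k : ℝ) / R))‖ with hf
  have hfK : ∀ i ∈ range R, f i ≤ K := by
    intro i _
    refine (norm_sum_le _ _).trans ?_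
    calc ∑ x ∈ Ioc a (a + K), ‖e (g x * ((i : ℝ) / R))‖ = ∑ x ∈ Ioc a (a + K), (1 : ℝ) :=
          sum_congr rfl fun x _ => norm_e _
      _ = K := by simp
      _ ≤ K := le_rfl
  have hb := moment_of_meas R f (fun i _ => norm_nonneg _) K (C1 ^ 2 * (9 * (R / (K : ℝ) ^ d))) hK0
    (by positivity) hfK c s (by omega) (fun δ hδ hδ1 => by
      have h1 := hmeas F g A a (a + K) K R δ hF hFA hA hg le_rfl hK hR0 hδ hδ1 0
      have h2 : ∀ i : ℕ, (((i : ℝ) - ((0 : ℕ) : ℝ)) / R) = (i : ℝ) / R := by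
        intro i
        simp
      simp only [h2] at h1
      refine h1.trans ?_
      have h3 : 6 * R / (K : ℝ) ^ d + 3 * A ≤ 9 * (R / (K : ℝ) ^ d) := by
        have : 6 * R / (K : ℝ) ^ d = 6 * (R / (K : ℝ) ^ d) := by ring
        linarith
      calc (C1 * (1 / δ) ^ c) ^ 2 * (6 * R / (K : ℝ) ^ d + 3 * A)
          ≤ (C1 * (1 / δ) ^ c) ^ 2 * (9 * (R / (K : ℝ) ^ d)) := by gcongr
        _ = C1 ^ 2 * (9 * (R / (K : ℝ) ^ d)) * ((1 / δ) ^ c) ^ 2 := by ring) K
  have hmom' : ∑ k ∈ range R, f k ^ (2 * s) = R * Nn := hmom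
  rw [hmom'] at hb
  have h4 : (1 / 4 : ℝ) ^ (s * K) ≤ 1 / (K : ℝ) ^ d := by
    rw [one_div_pow]
    apply one_div_le_one_div_of_le (by positivity)
    have h5 : (K : ℝ) ≤ 4 ^ K := by
      have : K < 4 ^ K := Nat.lt_pow_self (by norm_num)
      exact_mod_cast this.le
    calc (K : ℝ) ^ d ≤ (4 ^ K) ^ d := by gcongr
      _ ≤ (4 ^ K) ^ s := pow_le_pow_right₀ (one_le_pow₀ (by norm_num)) (by omega)
      _ = 4 ^ (s * K) := by rw [← pow_mul, mul_comm]
  have h5 : R * Nn ≤ R * ((2 * 4 ^ c * (C1 ^ 2 * 9) + 1) * (K : ℝ) ^ (2 * s - d)) := by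
    refine hb.trans ?_
    have h6 : (K : ℝ) ^ (2 * s - d) = (K : ℝ) ^ (2 * s) * (1 / (K : ℝ) ^ d) := by
      rw [pow_sub₀ _ hK0.ne' (by omega), one_div]
    rw [h6]
    calc (K : ℝ) ^ (2 * s) * (2 * 4 ^ c * (C1 ^ 2 * (9 * (R / (K : ℝ) ^ d)))
          + R * (1 / 4) ^ (s * K))
        ≤ (K : ℝ) ^ (2 * s) * (2 * 4 ^ c * (C1 ^ 2 * (9 * (R / (K : ℝ) ^ d)))
          + R * (1 / (K : ℝ) ^ d)) := by gcongr
      _ = _ := by ring
  exact le_of_mul_le_mul_left h5 hRr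

end Pool.Agent.PS.Energy
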