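import Pool.Agent.Work.PS.E.CIRCE
import Pool.Agent.Work.PS.WINB

/-!
# The exceptional set in a window, against weights of small additive energy
-/

set_option autoImplicit false

namespace Pool.Agent.PS

open Finset ArithmeticFunction Metric
open Pool.Agent.Circle (e norm_e)
open scoped Classical

/-- WINE: exceptional integers in a window carry little of any weight of small energy. -/
def Stmt_WINE : Prop := ∃ δ c C : ℝ, 0 < δ ∧ δ ≤ 1 ∧ 0 < c ∧ 1 ≤ C ∧ ∃ r : ℕ → ℕ,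
  (∀ A : ℕ, ∃ X0 : ℕ, ∀ X : ℕ, X0 ≤ X → (Real.log X) ^ A ≤ r X) ∧
  (∃ X0 : ℕ, ∀ X M : ℕ, X0 ≤ X → X ≤ M → (M : ℝ) ≤ X * (Real.log X) ^ 2 →
    ∀ s : ℕ, 1 ≤ s → ∀ Z : Finset ℕ, Z ⊆ Ioc M (M + X / 8) →
    (∀ m ∈ Z, Even m ∧ ¬ r X ∣ m ∧ ∑ a ∈ Ioc (X / 4) (X / 2), th a * th (m - a)
        < c * ((m : ℝ) / m.totient) * X) →
    ∀ w : ℕ → ℝ, (∀ m ∈ Z, 0 ≤ w m) →
    (∑ m ∈ Z, w m) ^ (2 * s)
      ≤ (C * (Real.log X) ^ 2) ^ (2 * s) * (X : ℝ) ^ (1 - δ) * energy s Z w) ∧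
  ∀ ε : ℝ, 0 < ε → ∃ X0 : ℕ, ∀ X M : ℕ, X0 ≤ X → X ≤ M → (M : ℝ) ≤ X * (Real.log X) ^ 2 →
    ∀ s : ℕ, 1 ≤ s → ∀ Z : Finset ℕ, Z ⊆ Ioc M (M + X / 8) →
    (∀ m ∈ Z, Even m ∧ ∑ a ∈ Ioc (X / 4) (X / 2), th a * th (m - a) < (X : ℝ) ^ (1 - ε)) →
    ∀ w : ℕ → ℝ, (∀ m ∈ Z, 0 ≤ w m) →
    (∑ m ∈ Z, w m) ^ (2 * s)
      ≤ ((X : ℝ) ^ ε * (Real.log X) ^ 2) ^ (2 * s) * (X : ℝ) ^ (1 - δ) * energy s Z w

namespace Energy

/-- One window, for given parameters, with a general lower bound `G`. -/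
theorem window_core3 {ε0 : ℝ}
    {C : ℝ} (hC : 0 < C)
    (hmin : ∀ N P : ℕ, 2 ≤ P → P ^ 3 ≤ N → ∀ α : ℝ,
      (∀ q : ℕ, ∀ a : ℤ, 0 < q → q ≤ P → IsCoprime a (q : ℤ) → (P : ℝ) / N < |α - a / q|) →
      ∀ K L : ℕ, K ≤ L → L ≤ N →
        ‖∑ n ∈ Ioc K L, (th n : ℂ) * e (n * α)‖ ≤ C * (N / √(P : ℝ)) * (Real.log N) ^ 4)
    (X M P : ℕ) (E : Option (Ch × ℝ)) (hP2 : 2 ≤ P) (hPX : P ^ 10 ≤ X)
    (hXM : X ≤ M) (hMX : M ≤ X ^ 2) (hMP : (M : ℝ) ≤ X * P)
    (hW : ∀ R H U V : ℕ, 0 < R → (H : ℝ) / R ≤ P / X → V + X < R → X ≤ 4 * U + 4 → U ≤ V →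
      V ≤ U + X → (V : ℝ) ≤ X * P →
      ∑ x ∈ Fam P, Wn R H (Ioc U V) (fun n => (th n : ℂ) * x.2 (n : ZMod x.1) - mt E x n)
        ≤ ε0 * lam E X * √(X : ℝ))
    (G : ℕ → ℝ)
    (hlow : ∀ (m R H : ℕ), 0 < R → (H : ℝ) / R ≤ P / X →
      (P : ℝ) / X ≤ 2 * H / R → M < m → m ≤ M + X / 8 → Even m → 4 * (M + X) < R →
      (m.divisors.card : ℝ) ≤ (P : ℝ) ^ (1 / 8 : ℝ) →
      ∑ x ∈ Fam P, Wn R H (Ioc (X / 4) (X / 2))
        (fun n => (th n : ℂ) * x.2 (n : ZMod x.1) - mt E x n) ≤ ε0 * lam E X * √(X : ℝ) →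
      ∑ x ∈ Fam P, Wn R H (Ioc (M - X / 2) M)
        (fun n => (th n : ℂ) * x.2 (n : ZMod x.1) - mt E x n) ≤ ε0 * lam E X * √(X : ℝ) →
      G m ≤ (Maj P R H (Ioc (X / 4) (X / 2)) (Ioc (M - X / 2) M)
        (fun n => (th n : ℂ)) (fun n => (th n : ℂ)) m).re)
    (hdivb : ∀ m ∈ Ioc M (M + X / 8), (m.divisors.card : ℝ) ≤ (P : ℝ) ^ (1 / 8 : ℝ))
    (s : ℕ) (hs : 1 ≤ s) (Z : Finset ℕ) (hZ : Z ⊆ Ioc M (M + X / 8)) (hev : ∀ m ∈ Z, Even m)
    (w : ℕ → ℝ) (hw : ∀ m ∈ Z, 0 ≤ w m) (τ : ℝ) (hτ : 0 ≤ τ)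
    (hbig : ∀ m ∈ Z, ∑ a ∈ Ioc (X / 4) (X / 2), th a * th (m - a) ≤ G m - τ) :
    (τ * ∑ m ∈ Z, w m) ^ (2 * s) ≤ (X * (Real.log M) ^ 2) ^ (2 * s - 1)
      * ((C * (X / √(P : ℝ)) * (Real.log X) ^ 4) * (X * Real.log M)) * energy s Z w := by
  have hPpos : 0 < P := by omega
  have hPr : (2 : ℝ) ≤ P := by exact_mod_cast hP2
  have hP10 : 1024 ≤ P ^ 10 := by
    calc 1024 = 2 ^ 10 := by norm_num
      _ ≤ P ^ 10 := Nat.pow_le_pow_left hP2 10
  have hXpos : 0 < X := by omega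
  have hX1024 : 1024 ≤ X := by omega
  have hXr : (0 : ℝ) < X := by exact_mod_cast hXpos
  have hMpos : 0 < M := by omega
  -- the modulus
  set R := P.factorial * (16 * X * M * s) with hR
  have hfac : 0 < P.factorial := Nat.factorial_pos P
  have hR16 : 16 * X * M * s ≤ R := by
    rw [hR]
    exact Nat.le_mul_of_pos_left _ hfac
  have hXMX : X ≤ X * M := Nat.le_mul_of_pos_right _ hMpos
  have hXMM : M ≤ X * M := Nat.le_mul_of_pos_left _ hXpos
  have hRXM : 16 * X * M ≤ R := by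
    refine le_trans ?_ hR16
    exact Nat.le_mul_of_pos_right _ hs
  have hRX : 16 * X ≤ R := by nlinarith
  have hRM : 16 * M ≤ R := by nlinarith
  have hRsM : s * (2 * M) < R := by
    have h1 : s * (2 * M) < 16 * X * M * s := by
      have h2 : 2 * M < 16 * X * M := by nlinarith
      calc s * (2 * M) = (2 * M) * s := by ring
        _ < (16 * X * M) * s := Nat.mul_lt_mul_of_pos_right h2 hs
    omega
  have hRpos : 0 < R := by omega
  have hRr : (0 : ℝ) < R := by exact_mod_cast hRpos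
  have hdiv : ∀ q, 0 < q → q ≤ P → q ∣ R := by
    intro q hq hqP
    rw [hR]
    exact Dvd.dvd.mul_right (Nat.dvd_factorial hq hqP) _
  set H := R * P / X with hH
  have hH1 : H * X ≤ R * P := Nat.div_mul_le_self _ _
  have hH2 : R * P < (H + 1) * X := by
    have := Nat.lt_mul_div_succ (R * P) hXpos
    rw [← hH] at this
    linarith
  have hHR : (H : ℝ) / R ≤ P / X := by
    rw [div_le_div_iff₀ hRr hXr]
    have : (H * X : ℝ) ≤ R * P := by exact_mod_cast hH1
    linarith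
  have hHR2 : (P : ℝ) / X ≤ 2 * H / R := by
    rw [div_le_div_iff₀ hXr hRr]
    have h1 : (R * P : ℝ) < (H + 1) * X := by exact_mod_cast hH2
    have h2 : (2 * X : ℝ) ≤ R * P := by
      have : 2 * X ≤ R * P := by nlinarith
      exact_mod_cast this
    nlinarith
  have hP3 : 4 * P ^ 3 < X := by
    calc 4 * P ^ 3 < P ^ 7 * P ^ 3 := by
          have : 4 < P ^ 7 := by
            calc 4 < 2 ^ 7 := by norm_num
              _ ≤ P ^ 7 := Nat.pow_le_pow_left hP2 7
          exact Nat.mul_lt_mul_of_pos_right this (by positivity)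
      _ = P ^ 10 := by ring
      _ ≤ X := hPX
  have h4HP : 4 * H * P ^ 2 < R := by
    have h1 : (4 * H * P ^ 2) * X < R * X := by
      calc (4 * H * P ^ 2) * X = 4 * P ^ 2 * (H * X) := by ring
        _ ≤ 4 * P ^ 2 * (R * P) := Nat.mul_le_mul_left _ hH1
        _ = R * (4 * P ^ 3) := by ring
        _ < R * X := Nat.mul_lt_mul_of_pos_left hP3 hRpos
    exact Nat.lt_of_mul_lt_mul_right h1
  have hI1 : ∀ n ∈ Ioc (X / 4) (X / 2), 4 * n < R := by
    intro n hn
    rw [mem_Ioc] at hn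
    omega
  have hI2 : ∀ n ∈ Ioc (M - X / 2) M, 4 * n < R := by
    intro n hn
    rw [mem_Ioc] at hn
    omega
  set U0 : ℝ := C * (X / √(P : ℝ)) * (Real.log X) ^ 4 with hU0
  have hlogX : 0 ≤ Real.log X := Real.log_nonneg (by exact_mod_cast hXpos)
  have hlogM : 0 ≤ Real.log M := Real.log_nonneg (by exact_mod_cast hMpos)
  have hU0nn : 0 ≤ U0 := by positivity
  have hsqI : ∀ I : Finset ℕ, (∀ n ∈ I, n ≤ M) → (I.card : ℝ) ≤ X →
      ∑ n ∈ I, ‖((th n : ℝ) : ℂ)‖ ^ 2 ≤ X * (Real.log M) ^ 2 := by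
    intro I hI hcard
    calc ∑ n ∈ I, ‖((th n : ℝ) : ℂ)‖ ^ 2
        ≤ ∑ n ∈ I, (Real.log M) ^ 2 := by
          refine sum_le_sum fun n hn => ?_
          rw [Complex.norm_real, Real.norm_eq_abs, abs_of_nonneg (th_nonneg n)]
          have h1 := th_le n M (hI n hn) (by omega)
          have h2 := th_nonneg n
          gcongr
      _ = (I.card : ℝ) * (Real.log M) ^ 2 := by rw [sum_const, nsmul_eq_mul]
      _ ≤ X * (Real.log M) ^ 2 := by gcongr
  have hw1 := hW R H (X / 4) (X / 2) hRpos hHR (by omega) (by omega) (by omega) (by omega) (by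
    have h1 : ((X / 2 : ℕ) : ℝ) ≤ X := by exact_mod_cast Nat.div_le_self X 2
    nlinarith)
  have hw2 := hW R H (M - X / 2) M hRpos hHR (by omega) (by omega) (by omega) (by omega) hMP
  refine circ_energy P R H hPpos hRpos hdiv h4HP (Ioc (X / 4) (X / 2)) (Ioc (M - X / 2) M) hI1 hI2
    (fun n => (th n : ℂ)) (fun n => (th n : ℂ)) U0 (X * Real.log M) (X * (Real.log M) ^ 2) hU0nn
    (by positivity) ?_ ?_ ?_ ?_ s hs Z (2 * M) ?_ hRsM w hw τ hτ ?_
  · intro k hk hq
    rw [mem_range] at hk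
    refine hmin X P hP2 ?_ ((k : ℝ) / R) ?_ (X / 4) (X / 2) (by omega) (by omega)
    · have : P ^ 3 ≤ 4 * P ^ 3 := Nat.le_mul_of_pos_left _ (by norm_num)
      omega
    · refine minor_cond P X R H hPpos hXpos hRpos hdiv hH2 ?_ k hk hq
      calc P ^ 2 ≤ P ^ 3 := Nat.pow_le_pow_right hPpos (by norm_num)
        _ ≤ 4 * P ^ 3 := Nat.le_mul_of_pos_left _ (by norm_num)
        _ < X := hP3
  · intro k _
    refine (norm_sum_le _ _).trans ?_
    calc ∑ n ∈ Ioc (M - X / 2) M, ‖((th n : ℝ) : ℂ) * e (n * ((k : ℝ) / R))‖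
        ≤ ∑ n ∈ Ioc (M - X / 2) M, Real.log M := by
          refine sum_le_sum fun n hn => ?_
          rw [mem_Ioc] at hn
          rw [norm_mul, norm_e, mul_one, Complex.norm_real, Real.norm_eq_abs,
            abs_of_nonneg (th_nonneg n)]
          exact th_le n M hn.2 (by omega)
      _ = ((Ioc (M - X / 2) M).card : ℝ) * Real.log M := by rw [sum_const, nsmul_eq_mul]
      _ ≤ X * Real.log M := by
          have : ((Ioc (M - X / 2) M).card : ℝ) ≤ X := by
            rw [Nat.card_Ioc]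
            exact_mod_cast (by omega : M - (M - X / 2) ≤ X)
          gcongr
  · refine hsqI _ (fun n hn => ?_) ?_
    · rw [mem_Ioc] at hn
      omega
    · rw [Nat.card_Ioc]
      exact_mod_cast (by omega : X / 2 - X / 4 ≤ X)
  · refine hsqI _ (fun n hn => ?_) ?_
    · rw [mem_Ioc] at hn
      omega
    · rw [Nat.card_Ioc]
      exact_mod_cast (by omega : M - (M - X / 2) ≤ X)
  · intro m hm
    have := hZ hm
    rw [mem_Ioc] at this
    omega
  · intro m hm
    have hmw := hZ hm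
    have hmw' := mem_Ioc.mp hmw
    have hl := hlow m R H hRpos hHR hHR2 hmw'.1 hmw'.2 (hev m hm) (by omega) (hdivb m hmw) hw1 hw2
    have hcv := cv_window X M m hXM hmw'.1 hmw'.2
    rw [Complex.sub_re, hcv, Complex.ofReal_re]
    have h3 := hbig m hm
    linarith

/-- the condition that the exceptional modulus has a prime factor `p ≥ 5` not dividing `m` -/
def Qc (E : Option (Ch × ℝ)) (m : ℕ) : Prop :=
  ∀ y δ, E = some (y, δ) → ∃ p : ℕ, p.Prime ∧ 5 ≤ p ∧ p ∣ y.1 ∧ ¬ p ∣ m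

/-- the lower bound for the major arcs -/
noncomputable def Gc (c : ℝ) (E : Option (Ch × ℝ)) (X m : ℕ) : ℝ :=
  if Qc E m then c * ((m : ℝ) / m.totient) * X else c * lam E X * X

end Energy

open WINB Energy in
theorem stmt_WINE (hWS : Stmt_WSB) (hLOW : Stmt_LOW) (hLOW2 : Stmt_LOW2)
    (hMIN : Stmt_MIN) (hS : Stmt_SIEG) (hRAD : Stmt_RAD) (hDIV : Stmt_DIVB) : Stmt_WINE := by
  obtain ⟨εa, ca, Pa, hεa, hca, hlowa⟩ := hLOW
  obtain ⟨εb, cb, Pb, hεb, hcb, hlowb⟩ := hLOW2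
  set ε0 : ℝ := min εa εb with hε0d
  have hε0 : 0 < ε0 := lt_min hεa hεb
  set c : ℝ := min ca cb with hcd
  have hc : 0 < c := lt_min hca hcb
  set P0 : ℕ := max Pa Pb with hP0d
  obtain ⟨θ, hθ, hθ1, X1, hws⟩ := hWS ε0 hε0
  obtain ⟨C, hC, hmin⟩ := hMIN
  choose! PP EE hPlow0 hPup0 hE0 hE20 hW0 using hws
  -- the key estimate
  have key : ∃ X0 : ℕ, X1 ≤ X0 ∧ 3 ≤ X0 ∧ ∀ X M : ℕ, X0 ≤ X → X ≤ M →
      (M : ℝ) ≤ X * (Real.log X) ^ 2 → ∀ s : ℕ, 1 ≤ s → ∀ Z : Finset ℕ, Z ⊆ Ioc M (M + X / 8) →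
      (∀ m ∈ Z, Even m) → ∀ w : ℕ → ℝ, (∀ m ∈ Z, 0 ≤ w m) → ∀ τ : ℝ, 0 < τ →
      (∀ m ∈ Z, ∑ a ∈ Ioc (X / 4) (X / 2), th a * th (m - a) ≤ Gc c (EE X) X m - τ) →
      (∑ m ∈ Z, w m) ^ (2 * s) ≤ (4 * X * (Real.log X) ^ 2 / τ) ^ (2 * s)
        * (X : ℝ) ^ (1 - θ / 32) * energy s Z w := by
    obtain ⟨X2, hX2⟩ := log_pow_le_rpow 3 (θ / 32) (2 / C) (by positivity) (by positivity)
    obtain ⟨X3, hX3⟩ := log_pow_le_rpow 2 (θ / 8) 1 (by positivity) (by positivity)
    have htend : Filter.Tendsto (fun X : ℕ => (X : ℝ) ^ (θ / 8)) Filter.atTop Filter.atTop :=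
      (tendsto_rpow_atTop (by positivity)).comp tendsto_natCast_atTop_atTop
    obtain ⟨X4, hX4⟩ := Filter.eventually_atTop.1 (htend.eventually_ge_atTop (max P0 2 : ℝ))
    obtain ⟨X5, hX5⟩ := hDIV (θ / 128) (by positivity)
    refine ⟨max X1 (max X2 (max X3 (max X4 (max X5 1000)))), le_max_left _ _, ?_, ?_⟩
    · omega
    intro X M hX hXM hM s hs Z hZ hev w hw τ hτ hbig
    simp only [max_le_iff] at hX
    obtain ⟨hX1', hX2', hX3', hX4', hX5', hX1000⟩ := hX
    have hPlow := hPlow0 X hX1'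
    have hPup := hPup0 X hX1'
    have hE := hE0 X hX1'
    have hW := hW0 X hX1'
    generalize hPP : PP X = P at hPlow hPup hE hW
    generalize hEE : EE X = E at hE hW hbig
    have hXr : (1000 : ℝ) ≤ X := by exact_mod_cast hX1000
    have hX0 : (0 : ℝ) < X := by linarith
    have hXp : 0 < X := by omega
    set L : ℝ := Real.log X with hL
    have hL1 : 1 ≤ L := by
      rw [hL, Real.le_log_iff_exp_le hX0]
      exact Real.exp_one_lt_d9.le.trans (by linarith)
    have h10 := hX2 X hX2'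
    have h2 := hX3 X hX3'
    rw [← hL] at h10 h2
    rw [one_mul] at h2
    have hP02 := hX4 X hX4'
    have hPr2 : (2 : ℝ) ≤ P := (le_max_right _ _).trans (hP02.trans hPlow)
    have hP2 : 2 ≤ P := by exact_mod_cast hPr2
    have hP0 : P0 ≤ P := by
      have : (P0 : ℝ) ≤ P := (le_max_left _ _).trans (hP02.trans hPlow)
      exact_mod_cast this
    have hPr : (0 : ℝ) < P := by linarith
    have hPX : P ^ 10 ≤ X := by
      have : (P : ℝ) ^ 10 ≤ X := by
        calc (P : ℝ) ^ 10 ≤ ((X : ℝ) ^ θ) ^ 10 := by gcongr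
          _ = (X : ℝ) ^ (θ * 10) := by
              rw [← Real.rpow_natCast, ← Real.rpow_mul hX0.le]
              norm_num
          _ ≤ (X : ℝ) ^ (1 : ℝ) := Real.rpow_le_rpow_of_exponent_le (by linarith) (by linarith)
          _ = X := Real.rpow_one _
      exact_mod_cast this
    have hL2P : L ^ 2 ≤ P := h2.trans hPlow
    have hMP : (M : ℝ) ≤ X * P := hM.trans (by gcongr)
    have hPX2 : (2 : ℝ) * P ≤ X := by
      have h1 : P ^ 2 ≤ P ^ 10 := Nat.pow_le_pow_right (by omega) (by norm_num)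
      have h3 : (P : ℝ) ^ 2 ≤ X := by exact_mod_cast h1.trans hPX
      have h4 : (2 : ℝ) * P ≤ P ^ 2 := by
        rw [pow_two]
        exact mul_le_mul_of_nonneg_right hPr2 hPr.le
      linarith
    have hMXr : (M : ℝ) + X ≤ (X : ℝ) ^ 2 := by
      have h1 : (X : ℝ) * P ≤ X * (X / 2) := by
        apply mul_le_mul_of_nonneg_left _ hX0.le
        linarith
      have h3 : (X : ℝ) ≤ X * (X / 2) := by
        apply le_mul_of_one_le_right hX0.le
        linarith
      calc (M : ℝ) + X ≤ X * (X / 2) + X * (X / 2) := by linarith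
        _ = (X : ℝ) ^ 2 := by ring
    have hMX : M ≤ X ^ 2 := by
      have : (M : ℝ) ≤ (X : ℝ) ^ 2 := by linarith
      exact_mod_cast this
    have hMr : (1 : ℝ) ≤ M := by
      have : (X : ℝ) ≤ M := by exact_mod_cast hXM
      linarith
    have hlogM : Real.log M ≤ 2 * L := by
      have h1 : Real.log M ≤ Real.log ((X : ℝ) ^ 2) :=
        Real.log_le_log (by linarith) (by exact_mod_cast hMX)
      rw [Real.log_pow] at h1
      push_cast at h1
      exact h1
    have hlogM0 : 0 ≤ Real.log M := Real.log_nonneg hMr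
    -- the divisor bound
    have hdivb : ∀ m ∈ Ioc M (M + X / 8), (m.divisors.card : ℝ) ≤ (P : ℝ) ^ (1 / 8 : ℝ) := by
      intro m hm
      rw [mem_Ioc] at hm
      have hm5 : X5 ≤ m := by omega
      have h1 := hX5 m hm5
      have hmX2 : (m : ℝ) ≤ (X : ℝ) ^ 2 := by
        have h3 : (m : ℝ) ≤ M + X := by
          have : m ≤ M + X := by omega
          exact_mod_cast this
        linarith
      calc (m.divisors.card : ℝ) ≤ (m : ℝ) ^ (θ / 128) := h1
        _ ≤ ((X : ℝ) ^ 2) ^ (θ / 128) := Real.rpow_le_rpow (Nat.cast_nonneg _) hmX2 (by positivity)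
        _ = ((X : ℝ) ^ (θ / 8)) ^ (1 / 8 : ℝ) := by
            rw [← Real.rpow_natCast, ← Real.rpow_mul hX0.le, ← Real.rpow_mul hX0.le]
            congr 1
            push_cast
            ring
        _ ≤ (P : ℝ) ^ (1 / 8 : ℝ) := Real.rpow_le_rpow (by positivity) hPlow (by norm_num)
    have hεle : ∀ ε1 : ℝ, ε0 ≤ ε1 → 0 ≤ lam E X →
        ε0 * lam E X * √(X : ℝ) ≤ ε1 * lam E X * √(X : ℝ) := by
      intro ε1 h h'
      have : 0 ≤ √(X : ℝ) := Real.sqrt_nonneg _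
      gcongr
    have hlam0 : 0 ≤ lam E X := by
      rcases hEq : E with _ | ⟨y, δ⟩
      · exact zero_le_one
      · obtain ⟨hexc, _, _, _⟩ := hE y δ hEq
        show 0 ≤ min 1 (δ * Real.log X)
        exact le_min zero_le_one (mul_nonneg hexc.pos.le (by linarith))
    have hEle : ∀ ε1 : ℝ, ε0 ≤ ε1 → ∀ y δ, E = some (y, δ) →
        Exc P y δ ∧ y.1 ^ 4 ≤ P ∧ 1 / ε1 ≤ (y.1 : ℝ) ∧ (y.1 : ℝ) ^ (-(1 / 8) : ℝ) ≤ δ := by
      intro ε1 h y δ hyd
      obtain ⟨a1, a2, a3, a4⟩ := hE y δ hyd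
      exact ⟨a1, a2, (one_div_le_one_div_of_le hε0 h).trans a3, a4⟩
    have hcore := window_core3 hC hmin X M P E hP2 hPX hXM hMX hMP hW (Gc c E X) (by
      intro m R H hR hHR hHR2 hMm hmM hev hMR hdc hw1 hw2
      have hca' : c ≤ ca := min_le_left _ _
      have hcb' : c ≤ cb := min_le_right _ _
      show (if Qc E m then c * ((m : ℝ) / m.totient) * X else c * lam E X * X) ≤ _
      split_ifs with hQm
      · refine le_trans ?_ (hlowb X P M m R H E ((le_max_right _ _).trans hP0) hPX hR hHR hHR2 hXM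
          hMm hmM hev hMR hdc (hEle εb (min_le_right _ _)) hQm
          (hw1.trans (hεle εb (min_le_right _ _) hlam0))
          (hw2.trans (hεle εb (min_le_right _ _) hlam0)))
        have : (0 : ℝ) ≤ (m : ℝ) / m.totient := by positivity
        gcongr
      · refine le_trans ?_ (hlowa X P M m R H E ((le_max_left _ _).trans hP0) hPX hR hHR hHR2 hXM
          hMm hmM hev hMR hdc (hEle εa (min_le_left _ _))
          (hw1.trans (hεle εa (min_le_left _ _) hlam0))
          (hw2.trans (hεle εa (min_le_left _ _) hlam0)))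
        gcongr) hdivb s hs Z hZ hev w hw τ hτ.le hbig
    -- numerical estimates
    have hen := energy_nonneg s Z w hw
    have hs0 : 0 ≤ ∑ m ∈ Z, w m := sum_nonneg hw
    set Y : ℝ := 4 * X * L ^ 2 with hY
    have hY0 : 0 < Y := by positivity
    have hsP : 0 < √(P : ℝ) := Real.sqrt_pos.mpr hPr
    have hB : X * (Real.log M) ^ 2 ≤ Y := by
      calc X * (Real.log M) ^ 2 ≤ X * (2 * L) ^ 2 := by gcongr
        _ = Y := by rw [hY]; ring
    have hUV : (C * (X / √(P : ℝ)) * L ^ 4) * (X * Real.log M) ≤ Y * (X : ℝ) ^ (1 - θ / 32) := by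
      have h3 : (X : ℝ) ^ (θ / 16) ≤ √(P : ℝ) := by
        have : (X : ℝ) ^ (θ / 16) = √((X : ℝ) ^ (θ / 8)) := by
          rw [Real.sqrt_eq_rpow, ← Real.rpow_mul hX0.le]
          congr 1
          ring
        rw [this]
        exact Real.sqrt_le_sqrt hPlow
      have h4 : C * L ^ 3 ≤ 2 * (X : ℝ) ^ (θ / 32) := by
        have h5 : C * L ^ 3 ≤ C * (2 / C * (X : ℝ) ^ (θ / 32)) := by gcongr
        refine h5.trans (le_of_eq ?_)
        field_simp
      calc (C * (X / √(P : ℝ)) * L ^ 4) * (X * Real.log M)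
          ≤ (C * (X / √(P : ℝ)) * L ^ 4) * (X * (2 * L)) := by gcongr
        _ = 2 * X * L ^ 2 * (X * (C * L ^ 3) / √(P : ℝ)) := by ring
        _ ≤ 2 * X * L ^ 2 * (X * (2 * (X : ℝ) ^ (θ / 32)) / (X : ℝ) ^ (θ / 16)) := by gcongr
        _ = Y * (X * (X : ℝ) ^ (θ / 32) / (X : ℝ) ^ (θ / 16)) := by rw [hY]; ring
        _ = Y * (X : ℝ) ^ (1 - θ / 32) := by
            congr 1
            nth_rewrite 1 [← Real.rpow_one (X : ℝ)]
            rw [← Real.rpow_add hX0, ← Real.rpow_sub hX0]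
            congr 1
            ring
    obtain ⟨n, hn⟩ : ∃ n, 2 * s = n + 1 := ⟨2 * s - 1, by omega⟩
    have hn' : 2 * s - 1 = n := by omega
    rw [hn'] at hcore
    rw [hn] at hcore ⊢
    have h5 : (τ * ∑ m ∈ Z, w m) ^ (n + 1) ≤ Y ^ (n + 1) * (X : ℝ) ^ (1 - θ / 32) * energy s Z w := by
      have hB0 : 0 ≤ X * (Real.log M) ^ 2 := by positivity
      calc (τ * ∑ m ∈ Z, w m) ^ (n + 1)
          ≤ (X * (Real.log M) ^ 2) ^ n
            * ((C * (X / √(P : ℝ)) * L ^ 4) * (X * Real.log M)) * energy s Z w := hcore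
        _ ≤ Y ^ n * (Y * (X : ℝ) ^ (1 - θ / 32)) * energy s Z w := by gcongr
        _ = Y ^ (n + 1) * (X : ℝ) ^ (1 - θ / 32) * energy s Z w := by ring
    have h6 : (∑ m ∈ Z, w m) ^ (n + 1) * τ ^ (n + 1)
        ≤ ((Y / τ) ^ (n + 1) * (X : ℝ) ^ (1 - θ / 32) * energy s Z w) * τ ^ (n + 1) := by
      calc (∑ m ∈ Z, w m) ^ (n + 1) * τ ^ (n + 1) = (τ * ∑ m ∈ Z, w m) ^ (n + 1) := by
            rw [mul_pow]; ring
        _ ≤ Y ^ (n + 1) * (X : ℝ) ^ (1 - θ / 32) * energy s Z w := h5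
        _ = ((Y / τ) ^ (n + 1) * (X : ℝ) ^ (1 - θ / 32) * energy s Z w) * τ ^ (n + 1) := by
            rw [div_pow]
            field_simp
    exact le_of_mul_le_mul_right h6 (by positivity)
  obtain ⟨Xk, hXk1, hXk3, hkey⟩ := key
  refine ⟨θ / 32, c / 2, max (8 / c) 1, by positivity, by linarith, by positivity, le_max_right _ _,
    fun X => rr (EE X) X, fun A => ?_, ⟨Xk, ?_⟩, fun ε hε => ?_⟩
  · obtain ⟨X2, hX2⟩ := rr_growth hRAD hS hθ A
    refine ⟨max X1 X2, fun X hX => ?_⟩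
    have h1 : X1 ≤ X := (le_max_left _ _).trans hX
    exact hX2 X ((le_max_right _ _).trans hX) (PP X) (EE X)
      (fun y δ h => (hE0 X h1 y δ h).1) (hE20 X h1)
  · -- first part: off the multiples of `r X`
    intro X M hX hXM hM s hs Z hZ hcond w hw
    have hX3 : 3 ≤ X := hXk3.trans hX
    have hX0 : (0 : ℝ) < X := by exact_mod_cast (by omega : 0 < X)
    have h1 := hkey X M hX hXM hM s hs Z hZ (fun m hm => (hcond m hm).1) w hw (c / 2 * X)
      (by positivity) (by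
        intro m hm
        obtain ⟨hev, hr, hlt⟩ := hcond m hm
        have hQm : Qc (EE X) m := by
          intro y δ hy
          by_contra hcon
          push Not at hcon
          apply hr
          show rr (EE X) X ∣ m
          rw [hy]
          exact rad5_dvd fun p hp h5 hd => hcon p hp h5 hd
        have hG : Gc c (EE X) X m = c * ((m : ℝ) / m.totient) * X := if_pos hQm
        rw [hG]
        have hm0 : 0 < m := by
          have := hZ hm
          rw [mem_Ioc] at this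
          omega
        have hmm1 : 1 ≤ (m : ℝ) / m.totient := by
          rw [le_div_iff₀ (by exact_mod_cast Nat.totient_pos.2 hm0), one_mul]
          exact_mod_cast Nat.totient_le m
        have h2 : c / 2 * X ≤ c / 2 * ((m : ℝ) / m.totient) * X := by
          have : c / 2 * 1 ≤ c / 2 * ((m : ℝ) / m.totient) := by gcongr
          have h3 := mul_le_mul_of_nonneg_right this hX0.le
          linarith
        linarith)
    refine h1.trans ?_
    have hen := energy_nonneg s Z w hw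
    have h2 : 4 * X * (Real.log X) ^ 2 / (c / 2 * X) ≤ max (8 / c) 1 * (Real.log X) ^ 2 := by
      have h3 : 4 * X * (Real.log X) ^ 2 / (c / 2 * X) = 8 / c * (Real.log X) ^ 2 := by
        field_simp
        ring
      rw [h3]
      gcongr
      exact le_max_left _ _
    gcongr
  · -- second part
    obtain ⟨cs, hcs, hsieg⟩ := hS (ε / 2) (by positivity)
    set cs' : ℝ := min cs 1 with hcs'
    have hcs'0 : 0 < cs' := lt_min hcs one_pos
    have htend2 : Filter.Tendsto (fun X : ℕ => (X : ℝ) ^ (ε / 2)) Filter.atTop Filter.atTop :=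
      (tendsto_rpow_atTop (by positivity)).comp tendsto_natCast_atTop_atTop
    obtain ⟨X5, hX5⟩ := Filter.eventually_atTop.1 (htend2.eventually_ge_atTop (8 / (c * cs')))
    refine ⟨max Xk X5, ?_⟩
    intro X M hX hXM hM s hs Z hZ hcond w hw
    have hXk : Xk ≤ X := (le_max_left _ _).trans hX
    have hε5 := hX5 X ((le_max_right _ _).trans hX)
    have hX3 : 3 ≤ X := hXk3.trans hXk
    have hX1' : X1 ≤ X := hXk1.trans hXk
    have hX0 : (0 : ℝ) < X := by exact_mod_cast (by omega : 0 < X)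
    have hXr3 : (3 : ℝ) ≤ X := by exact_mod_cast hX3
    have hL1 : 1 ≤ Real.log X := by
      rw [Real.le_log_iff_exp_le hX0]
      exact Real.exp_one_lt_d9.le.trans (by linarith)
    set τ : ℝ := c / 2 * (cs' * (X : ℝ) ^ (-(ε / 2))) * X with hτ
    have hτ0 : 0 < τ := by positivity
    have hlamε : cs' * (X : ℝ) ^ (-(ε / 2)) ≤ lam (EE X) X := by
      have hX1 : (X : ℝ) ^ (-(ε / 2)) ≤ 1 :=
        Real.rpow_le_one_of_one_le_of_nonpos (by linarith) (by linarith)
      have hcs1 : cs' * (X : ℝ) ^ (-(ε / 2)) ≤ 1 := by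
        have h3 : cs' ≤ 1 := min_le_right _ _
        have h4 : 0 ≤ (X : ℝ) ^ (-(ε / 2)) := by positivity
        calc cs' * (X : ℝ) ^ (-(ε / 2)) ≤ 1 * 1 := mul_le_mul h3 hX1 h4 zero_le_one
          _ = 1 := one_mul 1
      rcases hEq : EE X with _ | ⟨y, δ⟩
      · exact hcs1
      · obtain ⟨hexc, hy4, _, _⟩ := hE0 X hX1' y δ hEq
        have hlam : lam (some (y, δ)) X = min 1 (δ * Real.log X) := rfl
        rw [hlam]
        apply le_min hcs1
        have hy0 : 0 < y.1 := (Fam_pos hexc.mem).1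
        have hyr : (0 : ℝ) < y.1 := by exact_mod_cast hy0
        have h3 : δ ≤ δ * Real.log X := le_mul_of_one_le_right hexc.pos.le hL1
        refine le_trans ?_ ((hsieg (PP X) y δ hexc).trans h3)
        have hyX : (y.1 : ℝ) ≤ X := by
          have h5 : (y.1 : ℝ) ≤ PP X := by exact_mod_cast (Fam_pos hexc.mem).2
          refine h5.trans ((hPup0 X hX1').trans ?_)
          calc (X : ℝ) ^ θ ≤ (X : ℝ) ^ (1 : ℝ) :=
                Real.rpow_le_rpow_of_exponent_le (by linarith) (by linarith)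
            _ = X := Real.rpow_one _
        have h4 : (X : ℝ) ^ (-(ε / 2)) ≤ (y.1 : ℝ) ^ (-(ε / 2)) :=
          Real.rpow_le_rpow_of_nonpos hyr hyX (by linarith)
        exact mul_le_mul (min_le_left _ _) h4 (by positivity) hcs.le
    have hlam1 : lam (EE X) X ≤ 1 := by
      rcases hEq : EE X with _ | ⟨y, δ⟩
      · exact le_rfl
      · exact min_le_left _ _
    have h4 : (X : ℝ) ^ (1 - ε) ≤ τ := by
      have h5 : 1 ≤ c / 2 * cs' * (X : ℝ) ^ (ε / 2) := by
        rw [div_le_iff₀ (by positivity)] at hε5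
        nlinarith
      have h6 : (X : ℝ) ^ (1 - ε) = (X : ℝ) ^ (-(ε / 2)) * (X : ℝ) ^ (-(ε / 2)) * X := by
        rw [← Real.rpow_add hX0]
        nth_rewrite 3 [← Real.rpow_one (X : ℝ)]
        rw [← Real.rpow_add hX0]
        congr 1
        ring
      have h7 : (X : ℝ) ^ (-(ε / 2)) ≤ c / 2 * cs' := by
        rw [Real.rpow_neg hX0.le, inv_le_iff_one_le_mul₀ (by positivity)]
        exact h5
      rw [h6]
      calc (X : ℝ) ^ (-(ε / 2)) * (X : ℝ) ^ (-(ε / 2)) * X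
          ≤ (c / 2 * cs') * (X : ℝ) ^ (-(ε / 2)) * X := by gcongr
        _ = τ := by rw [hτ]; ring
    have h1 := hkey X M hXk hXM hM s hs Z hZ (fun m hm => (hcond m hm).1) w hw τ hτ0 (by
        intro m hm
        obtain ⟨hev, hlt⟩ := hcond m hm
        have hm0 : 0 < m := by
          have := hZ hm
          rw [mem_Ioc] at this
          omega
        have hmm1 : 1 ≤ (m : ℝ) / m.totient := by
          rw [le_div_iff₀ (by exact_mod_cast Nat.totient_pos.2 hm0), one_mul]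
          exact_mod_cast Nat.totient_le m
        have hG : 2 * τ ≤ Gc c (EE X) X m := by
          have h8 : 2 * τ ≤ c * lam (EE X) X * X := by
            calc 2 * τ = c * (cs' * (X : ℝ) ^ (-(ε / 2))) * X := by rw [hτ]; ring
              _ ≤ c * lam (EE X) X * X := by gcongr
          refine h8.trans ?_
          unfold Gc
          split_ifs
          · have h9 := hlam1.trans hmm1
            gcongr
          · exact le_rfl
        linarith)
    refine h1.trans ?_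
    have hen := energy_nonneg s Z w hw
    have h2 : 4 * X * (Real.log X) ^ 2 / τ ≤ (X : ℝ) ^ ε * (Real.log X) ^ 2 := by
      have h3 : 4 * X * (Real.log X) ^ 2 / τ
          = 8 / (c * cs') * (X : ℝ) ^ (ε / 2) * (Real.log X) ^ 2 := by
        rw [hτ, Real.rpow_neg hX0.le]
        field_simp
        ring
      rw [h3]
      have h5 : (X : ℝ) ^ ε = (X : ℝ) ^ (ε / 2) * (X : ℝ) ^ (ε / 2) := by
        rw [← Real.rpow_add hX0]
        congr 1
        ring
      rw [h5]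
      gcongr
    gcongr

end Pool.Agent.PS
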